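import Pool.Agent.H391.KR.PC

/-!
# Finite type root data with two root lengths (H391/KR, part G)
-/

noncomputable section

namespace H391.KR

open Finset

/-- Cartan data: `C i j` is the value of the `i`-th simple coroot at the `j`-th simple root, `t i` is
`2 / (α_i | α_i)`, and `th` is the coroot of the highest root (coefficients in the simple coroots). -/
structure GD (n : ℕ) where
  C : Fin n → Fin n → ℤ
  t : Fin n → ℤ
  th : Fin n → ℤ

namespace GD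

variable {n : ℕ} (S : GD n)

/-- weight coordinates (values of the simple coroots) of the `i`-th simple root -/
def rtw (i : Fin n) : Fin n → ℤ := fun j => S.C j i

/-- the coroots (coordinates: simple coroots): the orbits of the simple coroots -/
inductive Cor : (Fin n → ℤ) → Prop
  | simple (i : Fin n) : Cor (om i)
  | refl (a : Fin n → ℤ) (i : Fin n) : Cor a → Cor (a - dot a (S.rtw i) • om i)

/-- the positive coroots -/
def pos : Set (Fin n → ℤ) := {a | S.Cor a ∧ ∀ i, 0 ≤ a i}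

/-- half the square length of the coroot `a`, which is `2 / (α | α)` for its root `α` -/
def tt (a : Fin n → ℤ) : ℤ := (∑ i, ∑ j, a i * S.C i j * S.t j * a j) / 2

/-- weight coordinates of the root belonging to the coroot `a` -/
def rt (a : Fin n → ℤ) : Fin n → ℤ := fun j => (∑ i, S.C j i * S.t i * a i) / S.tt a

/-- the dual Coxeter number -/
def hv : ℤ := 1 + ∑ i, S.th i

/-- values of the simple affine coroots -/
def co : Option (Fin n) → (Option (Fin n) → ℤ) → ℤ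
  | some j, x => x (some j)
  | none, x => x none - dot S.th (fp x)

/-- the simple affine roots (modulo the imaginary root) -/
def al : Option (Fin n) → (Option (Fin n) → ℤ)
  | some j => aw 0 (S.rtw j)
  | none => aw 0 (-(S.rt S.th))

/-- the simple affine reflections -/
def rf (j : Option (Fin n)) (x : Option (Fin n) → ℤ) : Option (Fin n) → ℤ := x - S.co j x • S.al j

/-- translation -/
def tr (i : Fin n) (x : Option (Fin n) → ℤ) : Option (Fin n) → ℤ :=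
  aw (x none) (fp x - (x none * S.t i) • om i)

/-- the weight of level one with finite part `- t_i om_i` -/
def xi (i : Fin n) : Option (Fin n) → ℤ := aw 1 (-(S.t i • om i))

/-- the affine Weyl vector -/
def rho : Option (Fin n) → ℤ := aw S.hv fun _ => 1

/-- `(a, m)` is a positive real affine coroot -/
def APos (a : Fin n → ℤ) (m : ℤ) : Prop :=
  S.Cor a ∧ S.tt a ∣ m ∧ (1 ≤ m ∨ (m = 0 ∧ ∀ i, 0 ≤ a i))

/-- `D` is the reflection datum of the untwisted affine root system -/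
structure AffDat (D : RDat (Option (Fin n)) (Option (Fin n))) : Prop where
  ev : ∀ b : D.R, ∃ a m, S.APos a m ∧ (∀ x, D.ev b x = dot a (fp x) + m * x none) ∧
    D.rt b = aw 0 (S.rt a)
  exi : ∀ a m, S.APos a m → ∃ b : D.R, (∀ x, D.ev b x = dot a (fp x) + m * x none) ∧
    D.rt b = aw 0 (S.rt a)
  co : ∀ j x, D.co j x = S.co j x
  al : ∀ j, D.al j = S.al j
  T : D.T = {x | 1 ≤ x none}

/-- The elementary facts on the root data which are used (checked for `F_4` and `G_2`; for these types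
the longest element acts by `-1` and the translations lie in the affine Weyl group). -/
structure OK : Prop where
  t_pos : ∀ i, 1 ≤ S.t i
  symm : ∀ i j, S.t i * S.C j i = S.t j * S.C i j
  diag : ∀ i, S.C i i = 2
  off : ∀ i j, i ≠ j → S.C i j ≤ 0
  pd : ∀ a : Fin n → ℤ, a ≠ 0 → 0 < ∑ i, ∑ j, a i * S.C i j * S.t j * a j
  nd : ∀ a : Fin n → ℤ, (∀ j, dot a (S.rtw j) = 0) → a = 0
  nd' : ∀ g : Fin n → ℤ, (∑ j, g j • S.rtw j) = 0 → g = 0
  fin : {a | S.Cor a}.Finite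
  sgn : ∀ a, S.Cor a → a ≠ 0 ∧ ((∀ i, 0 ≤ a i) ∨ ∀ i, a i ≤ 0)
  om : ∀ i, S.tt (om i) = S.t i ∧ S.rt (om i) = S.rtw i
  two : ∀ a, S.Cor a → dot a (S.rt a) = 2
  refl : ∀ a b, S.Cor a → S.Cor b → S.Cor (b - dot b (S.rt a) • a) ∧
    S.tt (b - dot b (S.rt a) • a) = S.tt b ∧
    S.rt (b - dot b (S.rt a) • a) = S.rt b - dot a (S.rt b) • S.rt a
  pairs : ∀ a b, S.Cor a → S.Cor b → S.tt b * dot a (S.rt b) = S.tt a * dot b (S.rt a) ∧
    (S.tt a = S.tt b → dot a (S.rt b) = 2 → a = b) ∧ |dot a (S.rt b)| ≤ 3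
  prop : ∀ a, S.Cor a → ∀ i, (∀ k, k ≠ i → a k = 0) → a = H391.KR.om i ∨ a = -H391.KR.om i
  tt_pos : ∀ a, S.Cor a → 1 ≤ S.tt a
  tdvd : ∀ a, S.Cor a → ∀ i, S.tt a ∣ S.t i * a i
  rtc : ∀ a, S.Cor a → ∃ g : Fin n → ℤ, S.rt a = ∑ j, g j • S.rtw j ∧
    ∀ j, S.tt a * g j = S.t j * a j
  th_cor : S.Cor S.th ∧ S.tt S.th = 1
  th_pos : ∀ i, 1 ≤ S.th i
  th_dom : ∀ i, 0 ≤ S.rt S.th i
  th_pair : ∀ a, S.Cor a → a ≠ S.th → a ≠ -S.th → S.tt a ∣ dot a (S.rt S.th) ∧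
    |dot a (S.rt S.th)| ≤ S.tt a
  bnd : ∀ a, S.Cor a → ∀ i, a i ≤ S.tt a * S.th i
  w0 : ∃ w : List (Fin n), ∀ x : Fin n → ℤ, w.foldl (fun y j => y - y j • S.rtw j) x = -x
  trw : ∀ i, ∃ w : List (Option (Fin n)), ∀ x, w.foldl (fun y j => S.rf j y) (S.tr i x) = x

/-- a word for the translation `i` -/
structure XW (D : RDat (Option (Fin n)) (Option (Fin n))) (i : Fin n) where
  /-- word -/
  w : List (Option (Fin n))
  desc : D.Desc (some i :: w) (S.xi i)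
  eq : ∀ x, D.sR (some i :: w) (S.tr i x) = x

variable {S} in
/-- the operator `X_i` -/
def XW.X {D : RDat (Option (Fin n)) (Option (Fin n))} {i : Fin n} (X : S.XW D i) :
    GR (Option (Fin n)) →+ GR (Option (Fin n)) := D.demL (some i :: X.w)

/-- the character `F_m` (Kirillov-Reshetikhin character with the index `t_i m`) -/
def F (D : RDat (Option (Fin n)) (Option (Fin n))) (i : Fin n) (m : ℕ) : GR (Option (Fin n)) :=
  ex (aw (-(m : ℤ)) 0) * D.Dem (S.xi i) m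

/-- the element `T_m` (index `t_i m - 1`) -/
def T (D : RDat (Option (Fin n)) (Option (Fin n))) (i : Fin n) (m : ℕ) : GR (Option (Fin n)) :=
  ex (aw (-(m : ℤ)) (om i)) * (D.Dem (S.xi i) m - D.Dem (D.s (some i) (S.xi i)) m)

/-- product of powers over the neighbours -/
def nb (D : RDat (Option (Fin n)) (Option (Fin n))) (i : Fin n) (m : ℕ) : GR (Option (Fin n)) :=
  ∏ j, S.F D j m ^ (-(S.C i j)).toNat

/-- dominant weights of level at most `k` -/
def alc (k : ℕ) : Set (Fin n → ℤ) := {la | (∀ i, 0 ≤ la i) ∧ dot S.th la ≤ k}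

/-! ## Statements -/

/-- **G_dat.** -/
def G_dat : Prop := ∀ (n : ℕ) (S : GD n), S.OK → ∃ D, S.AffDat D

/-- **G_hd.** -/
def G_hd : Prop := ∀ (n : ℕ) (S : GD n), S.OK → ∀ D, S.AffDat D → D.HD S.rho

/-- **G_inv0.** -/
def G_inv0 : Prop := ∀ (n : ℕ) (S : GD n), S.OK → ∀ D, S.AffDat D →
  ∀ f : GR (Option (Fin n)), (∀ j : Fin n, D.IsInv (some j) f) →
    (∀ x, f.coeff x ≠ 0 → x none = 0) → SLC.Inv0 D f

/-- **G_sig.** -/
def G_sig : Prop := ∀ (n : ℕ) (S : GD n), S.OK → ∀ D, S.AffDat D → ∀ i, Nonempty (S.XW D i)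

/-- **G_cov.** The only cover of `xi i`, and of `aw N (-om i)` at large level. -/
def G_cov : Prop := ∀ (n : ℕ) (S : GD n), S.OK → ∀ D, S.AffDat D → ∀ i,
  (∀ y, D.Step 1 0 (S.xi i) y → y = D.s (some i) (S.xi i)) ∧
  ∃ N0 : ℤ, ∀ N : ℤ, N0 ≤ N → ∀ y, D.Step 1 0 (aw N (-om i)) y →
    y = D.s (some i) (aw N (-om i))

/-- **G_star.** Reduced words of the longest element, starting with any given letter. -/
def G_star : Prop := ∀ (n : ℕ) (S : GD n), S.OK → ∀ D, S.AffDat D → ∀ i,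
  ∃ c : List (Option (Fin n)), (∀ j ∈ c, ∃ k, j = some k) ∧
    (∀ N, D.Desc (some i :: c) (aw N fun _ => -1)) ∧
    ∀ x, D.sR (some i :: c) x = aw (x none) (-fp x)

/-- **G_sd.** Demazure characters and the longest element. -/
def G_sd : Prop := ∀ (n : ℕ) (S : GD n), S.OK → ∀ D, S.AffDat D → D.DemOK → ∀ i,
  ∃ c : List (Option (Fin n)), (∀ j ∈ c, ∃ k : Fin n, j = some k) ∧
  (∀ m, D.Dem (S.xi i) m = D.demL (some i :: c) (D.Dem (aw 1 (S.t i • om i)) m)) ∧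
  (∀ m, D.Dem (D.s (some i) (S.xi i)) m = D.demL c (D.Dem (aw 1 (S.t i • om i)) m)) ∧
  ∀ l : ℤ, ex (aw l (-om i)) = D.demL (some i :: c).reverse (ex (aw l (om i))) -
    D.demL c.reverse (ex (aw l (om i)))

/-- **G_X.** Properties of the operators `X_i`. -/
def G_X : Prop := ∀ (n : ℕ) (S : GD n), S.OK → ∀ D, S.AffDat D → D.DemOK → ∀ i (X : S.XW D i),
  (∀ phi f, SLC.Inv0 D phi → X.X (phi * f) = phi * X.X f) ∧
  (∀ m : ℕ, X.X (ex (aw m 0)) = D.Dem (S.xi i) m) ∧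
  (∀ la : Fin n → ℤ, (∀ j, 0 ≤ la j) → ∀ m, X.X (D.Dem (aw 1 (fun j => -(la j * S.t j))) m) =
    D.Dem (aw 1 (fun j => -(la j * S.t j) - S.t i * om i j)) m) ∧
  (∀ m, X.X (D.Dem (D.s (some i) (S.xi i)) m) =
    D.Dem (aw 1 (fun j => -(S.t i * (2 * om i j - S.C j i)))) m)

/-- **G_adj.** -/
def G_adj : Prop := ∀ (n : ℕ) (S : GD n), S.OK → ∀ D, S.AffDat D → D.DemOK → ∀ i (X : S.XW D i),
  ∀ m : ℕ, D.demL (some i :: X.w).reverse (ex (aw m 0)) = D.Dem (aw 1 (S.t i • om i)) m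

/-- **G_F.** The elements `F_m` and the product formula. -/
def G_F : Prop := ∀ (n : ℕ) (S : GD n), S.OK → ∀ D, S.AffDat D → D.DemOK →
  (∀ i m, SLC.Inv0 D (S.F D i m)) ∧ (∀ i m, SLC.Inv0 D (S.T D i m)) ∧
  (∀ i (m : ℕ), ex (aw (m : ℤ) 0) * S.F D i m = D.Dem (S.xi i) m) ∧
  (∀ i (m : ℕ), D.Dem (S.xi i) m - D.Dem (D.s (some i) (S.xi i)) m =
    ex (aw (m : ℤ) (-om i)) * S.T D i m) ∧
  (∀ (la : Fin n → ℕ) (m : ℕ), D.Dem (aw 1 (fun j => -((la j : ℤ) * S.t j))) m =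
    ex (aw m 0) * ∏ j, S.F D j m ^ la j) ∧
  (∀ i (m : ℕ), D.Dem (aw 1 (fun j => -(S.t i * (2 * om i j - S.C j i)))) m =
    ex (aw m 0) * S.nb D i m) ∧ ∀ i, S.F D i 0 = 1

/-- **G_K.** The Q-system relation with the index `t_i m`, at level `k`. -/
def G_K : Prop := ∀ (n : ℕ) (S : GD n), S.OK → ∀ D, S.AffDat D → D.DemOK → ∀ i (m k : ℕ),
  m ≤ k → ∀ p, D.Anti p → ∀ phi, SLC.Inv0 D phi →
    pair p (phi * (ex (aw k 0) * (S.F D i m ^ 2 - S.nb D i m))) =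
      pair p (phi * (ex (aw k 0) * (S.T D i m * S.T D i (k - m))))

/-- **G_main5.** Restriction rule for the paths with the first direction `x`. -/
def G_main5 : Prop := ∀ (ι I : Type) (D : RDat ι I) (M m : ℕ) (x lam : ι → ℤ) (i : I), x ∈ D.T →
  D.Good M x → D.co i x < 0 → (∀ y, D.Step 1 0 x y → y = D.s i x) → 0 < m →
  (∀ j, 0 ≤ -(D.co i x) * D.co j lam + D.co j x) → ∀ p : (ι → ℤ) → ℤ,
  (∀ y j, p (y - (D.co j y + 1) • D.al j) = - p y) →
  D.Paths M (m * M) (D.s i x) ⊆ D.Paths M (m * M) x ∧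
  ∃ A : Set (ℕ → ι → ℤ), A ⊆ D.Paths M (m * M) x ∧
    (∀ τ ∈ A, D.Dom (lam + wt M (m * M) τ)) ∧
  ∑ᶠ τ ∈ D.Paths M (m * M) x \ D.Paths M (m * M) (D.s i x), p (lam + wt M (m * M) τ) =
    ∑ᶠ τ ∈ A, p (lam + wt M (m * M) τ)

/-- **G_dem9.** -/
def G_dem9 : Prop := ∀ (ι I : Type) [Finite I] (D : RDat ι I) (rho : ι → ℤ), D.HD rho →
  ∀ x ∈ D.T, ∀ m lam i, D.co i x < 0 → (∀ y, D.Step 1 0 x y → y = D.s i x) →
    (∀ j, 0 ≤ -(D.co i x) * D.co j lam + D.co j x) →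
    ∃ c : (ι → ℤ) →₀ ℕ, (∀ nu, c nu ≠ 0 → D.Dom nu) ∧
      ∀ p, D.Anti p → pair p (ex lam * (D.Dem x m - D.Dem (D.s i x) m)) =
        c.sum fun nu a => (a : ℤ) * p nu

/-- **G_pos.** Positivity, the simple current, and vanishing. -/
def G_pos : Prop := ∀ (n : ℕ) (S : GD n), S.OK → ∀ D, S.AffDat D → D.DemOK → ∀ i,
  (∀ k m : ℕ, m ≤ k → (∀ la, D.Dom la → 0 ≤ pair (D.pf la) (ex (aw k 0) * S.F D i m)) ∧
    ∃ la ∈ S.alc k, pair (D.pf (aw k la)) (ex (aw k 0) * S.F D i m) ≠ 0) ∧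
  (∀ k m : ℕ, m ≤ k → ∀ la, D.Dom la → 0 ≤ pair (D.pf la) (ex (aw k 0) * S.T D i m)) ∧
  (∀ k : ℕ, ∀ p, D.Anti p → ∀ phi, SLC.Inv0 D phi →
    pair p (phi * (ex (aw k 0) * S.F D i k)) = pair p (phi * ex (aw k 0))) ∧
  (∀ k : ℕ, 1 ≤ k → ∀ p, D.Anti p → ∀ phi, SLC.Inv0 D phi →
    pair p (phi * (ex (aw k 0) * S.F D i (k + 1))) = 0)

end GD

end H391.KR
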