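import Pool.Agent.H391.KR.GV

/-!
# The types F_4 and G_2, Kirillov-Reshetikhin families, final statements (H391/KR, part GT)
-/

noncomputable section

namespace H391.KR

open Finset

/-- type `F_4`, the first two simple roots are long -/
def F4 : GD 4 where
  C := ![![2, -1, 0, 0], ![-1, 2, -1, 0], ![0, -2, 2, -1], ![0, 0, -1, 2]]
  t := ![1, 1, 2, 2]
  th := ![2, 3, 2, 1]

/-- type `G_2`, the first simple root is short -/
def G2 : GD 2 where
  C := ![![2, -3], ![-1, 2]]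
  t := ![3, 1]
  th := ![1, 2]

namespace GD

variable {n : ℕ} (S : GD n)

/-- the representation ring: Weyl group invariants in the group ring of the weight lattice -/
def RepR : Type := S.Rep

instance repRing : CommRing S.RepR := Subring.toCommRing S.Rep

variable {S} in
/-- the character of a class -/
def chr (f : S.RepR) : GR (Fin n) := Subtype.val (p := fun x => x ∈ S.Rep) f

/-- multiplicity of the irreducible module of highest weight `mu` (dominant) in the class `f`,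
by Weyl's character formula -/
def mult (f : S.RepR) (mu : Fin n → ℤ) : ℤ := (chr f * S.Delta).coeff mu

/-- quantum dimension at level `k` -/
def qdim (k : ℕ) (f : S.RepR) : ℝ := S.qdimR (S.par k) (chr f)

/-- the Demazure operator `j` on `e^x` -/
def dmB (j : Option (Fin n)) (x : Option (Fin n) → ℤ) : GR (Option (Fin n)) :=
  if 0 ≤ S.co j x then ∑ c ∈ range ((S.co j x).toNat + 1), ex (x - (c : ℤ) • S.al j)
  else - ∑ c ∈ range ((-S.co j x).toNat - 1), ex (x + ((c : ℤ) + 1) • S.al j)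

/-- the Demazure operator `j` -/
def dm (j : Option (Fin n)) (f : GR (Option (Fin n))) : GR (Option (Fin n)) :=
  f.coeff.sum fun x c => c • S.dmB j x

/-- `Red w x`: the word `w` is a reduced word which moves `x` to the basic fundamental weight
(each letter acts at a negative value, the first letter acts first) -/
def Red : List (Option (Fin n)) → (Option (Fin n) → ℤ) → Prop
  | [], x => x = aw 1 0
  | j :: w, x => S.co j x < 0 ∧ Red w (S.rf j x)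

/-- neighbour product of the Q-system -/
def qnb (Q : Fin n → ℕ → S.RepR) (i : Fin n) (m : ℕ) : S.RepR :=
  ∏ j, ∏ l ∈ range (-(S.C i j)).toNat, Q j (((-(S.C j i)).toNat * m + l) / (-(S.C i j)).toNat)

/-- The family of the classes of the Kirillov-Reshetikhin modules. -/
structure KRFam (Q : Fin n → ℕ → S.RepR) : Prop where
  zero : ∀ i, Q i 0 = 1
  qsys : ∀ i m, Q i (m + 1) * Q i (m + 1) = Q i (m + 2) * Q i m + S.qnb Q i (m + 1)
  pos : ∀ i m mu, (∀ j, 0 ≤ mu j) → 0 ≤ S.mult (Q i m) mu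
  top : ∀ i (m : ℕ), S.mult (Q i m) ((m : ℤ) • om i) = 1
  low : ∀ i (m : ℕ) mu, (∀ j, 0 ≤ mu j) → S.mult (Q i m) mu ≠ 0 →
    ∃ g : Fin n → ℕ, mu = (m : ℤ) • om i - ∑ j, (g j : ℤ) • S.rtw j
  dem : ∀ i (m : ℕ) w, S.Red w (S.xi i) →
    ex (aw (m : ℤ) 0) * push aw0 (chr (Q i ((S.t i).toNat * m))) = w.foldr S.dm (ex (aw (m : ℤ) 0))

/-- the statements (1), (2), (3) at level `k` for the node `i` -/
def QD (Q : Fin n → ℕ → S.RepR) (k : ℕ) (i : Fin n) : Prop :=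
  (∀ m : ℕ, m ≤ (S.t i).toNat * k → 0 < S.qdim k (Q i m)) ∧ S.qdim k (Q i 0) = 1 ∧
    S.qdim k (Q i ((S.t i).toNat * k)) = 1 ∧ S.qdim k (Q i ((S.t i).toNat * k + 1)) = 0

/-! ## Statements -/

/-- **T_F4.** -/
def T_F4 : Prop := F4.OK

/-- **T_G2.** -/
def T_G2 : Prop := G2.OK

/-- **T_red.** The operators of a reflection datum are the ones above; reduced words exist. -/
def T_red : Prop := ∀ (n : ℕ) (S : GD n), S.OK → ∀ D, S.AffDat D →
  (∀ j f, D.dem j f = S.dm j f) ∧ (∀ w f, D.demL w f = w.foldr S.dm f) ∧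
  (∀ i, ∃ w, S.Red w (S.xi i)) ∧
  ∀ i w, S.Red w (S.xi i) → ∀ m : ℕ, D.DemOK →
    w.foldr S.dm (ex (aw (m : ℤ) 0)) = D.Dem (S.xi i) m

/-- **T_lev.** What is known at level `k` about a Kirillov-Reshetikhin family. -/
def T_lev : Prop := ∀ (n : ℕ) (S : GD n), S.OK → ∀ Q, S.KRFam Q → ∀ k : ℕ, 1 ≤ k →
  (∀ i m, m ≤ k → 0 < S.qdim k (Q i ((S.t i).toNat * m))) ∧
  (∀ i, S.qdim k (Q i ((S.t i).toNat * k)) = 1) ∧
  (∀ i, S.qdim k (Q i ((S.t i).toNat * (k + 1))) = 0) ∧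
  (∀ i m, m ≤ k → 0 ≤ S.qdim k (Q i ((S.t i).toNat * m)) ^ 2 -
    ∏ j, S.qdim k (Q j ((S.t j).toNat * m)) ^ (-(S.C i j)).toNat) ∧
  (∀ (i : Fin n) (m : ℕ), (m : ℤ) * S.th i ≤ k → 0 < S.qdim k (Q i m)) ∧
  ∃ e : S.RepR →+* ℝ, ∀ f, e f = S.qdim k f

/-- **T_F4fin.** -/
def T_F4fin : Prop := ∀ Q, F4.KRFam Q → ∀ k : ℕ, 2 ≤ k → ∀ i, F4.QD Q k i

/-- **T_G2p.** The long node in type `G_2`. -/
def T_G2p : Prop := ∀ Q, G2.KRFam Q → ∀ τ : ℝ, 0 < τ → τ * 4 ≤ Real.pi → ∀ m : ℕ,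
  G2.qdimR τ (chr (Q 1 m)) = ∑ j ∈ range (m + 1), G2.qdR τ ((j : ℤ) • om 1)

/-- `∑_{j ≤ m} qdim V(j θ)` in type `G_2` (up to the constant denominator) -/
def pG (τ : ℝ) (m : ℕ) : ℝ := ∑ j ∈ range (m + 1),
  Real.sin ((j + 1) * τ) * Real.sin ((j + 2) * τ) * Real.sin ((2 * j + 3) * τ) *
    Real.sin ((3 * j + 4) * τ / 3) * Real.sin ((3 * j + 5) * τ / 3) /
  (Real.sin τ * Real.sin (2 * τ) * Real.sin (3 * τ) * Real.sin (4 * τ / 3) * Real.sin (5 * τ / 3))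

/-- **T_G2s.** -/
def T_G2s : Prop := (∀ τ : ℝ, 0 < τ → τ * 4 ≤ Real.pi → ∀ j : ℕ, G2.qdR τ ((j : ℤ) • om 1) =
    Real.sin ((j + 1) * τ) * Real.sin ((j + 2) * τ) * Real.sin ((2 * j + 3) * τ) *
    Real.sin ((3 * j + 4) * τ / 3) * Real.sin ((3 * j + 5) * τ / 3) /
  (Real.sin τ * Real.sin (2 * τ) * Real.sin (3 * τ) * Real.sin (4 * τ / 3) *
    Real.sin (5 * τ / 3)))

/-- **T_G2a.** -/
def T_G2a : Prop := ∀ τ : ℝ, 0 < τ → ∀ m : ℕ, τ * (m + 4) ≤ Real.pi →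
  0 < pG τ m ∧ 0 < pG τ m ^ 2 - (if m = 0 then 0 else pG τ (m - 1)) * pG τ (m + 1) ∧
  (τ * (m + 4) = Real.pi → pG τ m = 1 ∧ pG τ (m + 1) = 0)

/-- **T_G2fin.** -/
def T_G2fin : Prop := ∀ Q, G2.KRFam Q → ∀ k : ℕ, 2 ≤ k → ∀ i, G2.QD Q k i

end GD

end H391.KR
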