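import Pool.Agent.H391.KR.PC

/-!
# Kirillov-Reshetikhin characters and the Verlinde ring (H391/KR, part F)
-/

noncomputable section

namespace H391.KR

open Finset

/-- inclusion of the finite weights in level zero -/
def aw0 {n : ℕ} : (Fin n → ℤ) →+ (Option (Fin n) → ℤ) where
  toFun := aw 0
  map_zero' := by funext o; cases o <;> rfl
  map_add' := by intro x y; funext o; cases o <;> simp [aw]

namespace SLC

variable {n : ℕ} (S : SLC n)

/-- simple root `i` in fundamental weight coordinates -/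
def rtw (i : Fin n) : Fin n → ℤ := fun j => S.C j i

/-- simple reflection `i` on the weight lattice -/
def refl (i : Fin n) : (Fin n → ℤ) →+ (Fin n → ℤ) where
  toFun mu := mu - mu i • S.rtw i
  map_zero' := by simp
  map_add' := by intro x y; funext j; simp only [Pi.add_apply, Pi.sub_apply, Pi.smul_apply,
    smul_eq_mul]; ring

/-- The representation ring, as the ring of Weyl group invariants in the group ring of the
weight lattice (coordinates: fundamental weights). -/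
def Rep : Subring (GR (Fin n)) := ⨅ i, (push (S.refl i)).eqLocus (RingHom.id (GR (Fin n)))

/-- the set of positive roots (coordinates: simple roots) -/
def posRoots : Set (Fin n → ℤ) := {a | S.IsRoot a ∧ ∀ i, 0 ≤ a i}

/-- Weyl denominator: product of `1 - e^{-a}` over the positive roots -/
def Delta : GR (Fin n) := ∏ᶠ a ∈ S.posRoots, (1 - ex (-(S.cv a)))

/-- multiplicity of the irreducible module of highest weight `mu` (dominant) in the class `f`,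
by Weyl's character formula -/
def mult (f : GR (Fin n)) (mu : Fin n → ℤ) : ℤ := (f * S.Delta).coeff mu

/-- dominant weights of level at most `k` -/
def alc (k : ℕ) : Set (Fin n → ℤ) := {la | (∀ i, 0 ≤ la i) ∧ dot S.th la ≤ k}

/-- Signed linkage at level `k`: `Lk k e mu nu` says that `mu = w . nu` for a product `w` of simple
affine reflections (shifted action), whose number has parity given by the sign `e`. -/
inductive Lk (k : ℕ) : ℤ → (Fin n → ℤ) → (Fin n → ℤ) → Prop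
  | refl (nu : Fin n → ℤ) : Lk k 1 nu nu
  | fin (e : ℤ) (mu nu : Fin n → ℤ) (i : Fin n) : Lk k e mu nu →
      Lk k (-e) (mu - (mu i + 1) • S.rtw i) nu
  | aff (e : ℤ) (mu nu : Fin n → ℤ) : Lk k e mu nu →
      Lk k (-e) (mu - (dot S.th mu - k - 1) • S.cv S.th) nu

open Classical in
/-- the sign with which the irreducible module `mu` contributes to `la` at level `k` (or `0`) -/
def sgn (k : ℕ) (mu la : Fin n → ℤ) : ℤ :=
  if S.Lk k 1 mu la then 1 else if S.Lk k (-1) mu la then -1 else 0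

open Classical in
/-- coefficient at `la` of the image of the class `f` in the Verlinde ring of level `k` -/
def piK (k : ℕ) (f : GR (Fin n)) (la : Fin n → ℤ) : ℤ :=
  (f * S.Delta).coeff.sum fun mu c => if ∀ i, 0 ≤ mu i then c * S.sgn k mu la else 0

/-- the Verlinde ring of level `k` -/
structure Verlinde (k : ℕ) (V : Type) [CommRing V] where
  /-- basis indexed by the dominant weights of level at most `k` -/
  b : Module.Basis (S.alc k) ℤ V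
  /-- the quotient map from the representation ring -/
  pi : S.Rep →+* V
  pi_eq : ∀ (f : S.Rep) (la : S.alc k), b.repr (pi f) la = S.piK k f la

/-- the characters of Kirillov-Reshetikhin modules -/
structure KRFamily (Q : Fin n → ℕ → S.Rep) : Prop where
  zero : ∀ i, Q i 0 = 1
  qsys : ∀ i m, Q i (m + 1) ^ 2 = Q i (m + 2) * Q i m +
    ∏ j, if S.C i j = -1 then Q j (m + 1) else 1
  top : ∀ i (m : ℕ), (Q i m : GR (Fin n)).coeff ((m : ℤ) • om i) = 1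
  low : ∀ i (m : ℕ) mu, (Q i m : GR (Fin n)).coeff mu ≠ 0 →
    ∃ g : Fin n → ℕ, mu = (m : ℤ) • om i - S.cv fun j => (g j : ℤ)
  lim : ∀ i (g : Fin n → ℕ), ∃ (c : ℤ) (N : ℕ), ∀ m : ℕ, N ≤ m →
    (Q i m : GR (Fin n)).coeff ((m : ℤ) • om i - S.cv fun j => (g j : ℤ)) = c

/-- quantum dimension of the irreducible module `mu` at level `k` -/
def qd (k : ℕ) (mu : Fin n → ℤ) : ℝ := ∏ᶠ a ∈ S.posRoots,
  (Real.sin (Real.pi * (∑ i, a i * (mu i + 1) : ℤ) / (k + 1 + ∑ i, S.th i : ℤ)) /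
    Real.sin (Real.pi * (∑ i, a i : ℤ) / (k + 1 + ∑ i, S.th i : ℤ)))

open Classical in
/-- quantum dimension of a class -/
def qdim (k : ℕ) (f : GR (Fin n)) : ℝ :=
  (f * S.Delta).coeff.sum fun mu c => if ∀ i, 0 ≤ mu i then (c : ℝ) * S.qd k mu else 0

/-! ## Statements -/

/-- **V_fin.** The finite reflection datum. -/
def V_fin : Prop := ∀ (n : ℕ) (S : SLC n), ∃ D : RDat (Fin n) (Fin n),
  (∀ j x, D.co j x = x j) ∧ (∀ j, D.al j = S.rtw j) ∧ D.T = Set.univ ∧ D.HD (fun _ => 1) ∧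
  (∀ b, ∃ a ∈ S.posRoots, (∀ x, D.ev b x = dot a x) ∧ D.rt b = S.cv a) ∧
  ∀ a ∈ S.posRoots, ∃ b, (∀ x, D.ev b x = dot a x) ∧ D.rt b = S.cv a

open Classical in
/-- **V_AB.** -/
def V_AB : Prop := ∀ (n : ℕ) (S : SLC n) (f : S.Rep) (p : (Fin n → ℤ) → ℤ),
  (∀ mu i, p (mu - (mu i + 1) • S.rtw i) = - p mu) →
  ((f : GR (Fin n)) * S.Delta).coeff.sum (fun mu c => if ∀ i, 0 ≤ mu i then c * p mu else 0) =
    pair p (f : GR (Fin n))

/-- **V_pik.** -/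
def V_pik : Prop := ∀ (n : ℕ) (S : SLC n) D, S.AffDat D → ∀ (k : ℕ),
  (∀ mu la, S.sgn k mu la = D.pf (aw k la) (aw k mu)) ∧
  (∀ la, la ∈ S.alc k ↔ D.Dom (aw k la)) ∧
  (∀ (f : S.Rep), ∀ la ∈ S.alc k,
    S.piK k f la = pair (D.pf (aw k la)) (ex (aw k 0) * push aw0 (f : GR (Fin n))))

/-- **V_mem.** -/
def V_mem : Prop := ∀ (n : ℕ) (S : SLC n) D, S.AffDat D →
  (∀ f : S.Rep, Inv0 D (push aw0 (f : GR (Fin n)))) ∧
  (∀ g, Inv0 D g → ∃ f : S.Rep, push aw0 (f : GR (Fin n)) = g) ∧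
  ∀ f g : GR (Fin n), push aw0 f = push aw0 g → f = g

/-- **V_exp.** -/
def V_exp : Prop := ∀ (n : ℕ) (S : SLC n) D, S.AffDat D → ∀ (k : ℕ), (S.alc k).Finite ∧
  ∀ A : Finset (Fin n → ℤ), (∀ la, la ∈ A ↔ la ∈ S.alc k) → ∀ p, D.Anti p →
    ∀ f : GR (Option (Fin n)), (∀ x, f.coeff x ≠ 0 → x none = 0) → pair p (ex (aw k 0) * f) =
      ∑ la ∈ A, p (aw k la) * pair (D.pf (aw k la)) (ex (aw k 0) * f)

/-- **V_ker.** -/
def V_ker : Prop := ∀ (n : ℕ) (S : SLC n) D, S.AffDat D → ∀ (k : ℕ) f g, Inv0 D f → Inv0 D g →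
  (∀ la ∈ S.alc k, pair (D.pf (aw k la)) (ex (aw k 0) * f) = 0) →
  ∀ p, D.Anti p → pair p (ex (aw k 0) * (g * f)) = 0

/-- **V_surj.** -/
def V_surj : Prop := ∀ (n : ℕ) (S : SLC n) D, S.AffDat D → D.DemOK → ∀ (k : ℕ), ∀ la ∈ S.alc k,
  ∃ f, Inv0 D f ∧ ∀ p, D.Anti p → pair p (ex (aw k 0) * f) = p (aw k la)

/-- **V_ring.** -/
def V_ring : Prop := ∀ (n : ℕ) (S : SLC n) (k : ℕ), ∃ (V : Type) (_ : CommRing V),
  Nonempty (S.Verlinde k V)

/-- **V_ver.** Positivity, the simple current, and vanishing. -/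
def V_ver : Prop := ∀ (n : ℕ) (S : SLC n) D, S.AffDat D → D.DemOK → ∀ i,
  (∀ k m : ℕ, m ≤ k → (∀ la, D.Dom la → 0 ≤ pair (D.pf la) (ex (aw k 0) * S.F D i m)) ∧
    ∃ la ∈ S.alc k, pair (D.pf (aw k la)) (ex (aw k 0) * S.F D i m) ≠ 0) ∧
  (∀ (X : XDat D i) (k : ℕ) p, D.Anti p → ∀ phi, Inv0 D phi →
    pair p (phi * (ex (aw k 0) * S.F D i k)) = pair (fun x => p (X.sg x)) (phi * ex (aw k 0))) ∧
  (∀ k : ℕ, ∃ N : ℕ, 0 < N ∧ ∀ p, D.Anti p → ∀ phi, Inv0 D phi →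
    pair p (phi * (ex (aw k 0) * S.F D i k ^ N)) = pair p (phi * ex (aw k 0))) ∧
  (∀ k : ℕ, 1 ≤ k → ∀ p, D.Anti p → ∀ phi, Inv0 D phi →
    pair p (phi * (ex (aw k 0) * S.F D i (k + 1))) = 0)

/-- **V_low.** Supports (lowest weights) and stabilisation. -/
def V_low : Prop := ∀ (n : ℕ) (S : SLC n) D, S.AffDat D → D.DemOK → ∀ i (m : ℕ),
  (∀ mu, (S.F D i m).coeff (aw 0 mu) ≠ 0 →
    ∃ g : Fin n → ℕ, mu = -((m : ℤ) • om i) + S.cv fun j => (g j : ℤ)) ∧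
  (S.F D i m).coeff (aw 0 (-((m : ℤ) • om i))) = 1 ∧
  ∀ g : Fin n → ℕ, g i ≤ m →
    (S.F D i (m + 1)).coeff (aw 0 (-(((m : ℤ) + 1) • om i) + S.cv fun j => (g j : ℤ))) =
    (S.F D i m).coeff (aw 0 (-((m : ℤ) • om i) + S.cv fun j => (g j : ℤ)))

/-- **V_fam.** -/
def V_fam : Prop := ∀ (n : ℕ) (S : SLC n) D, S.AffDat D → D.DemOK →
  ∃ (st : Fin n ≃ Fin n) (Q : Fin n → ℕ → S.Rep), S.KRFamily Q ∧
    ∀ i m, push aw0 (Q i m : GR (Fin n)) = S.F D (st i) m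

/-- **V_uniq.** -/
def V_uniq : Prop := ∀ (n : ℕ) (S : SLC n) (Q Q' : Fin n → ℕ → S.Rep), S.KRFamily Q →
  S.KRFamily Q' → Q = Q'

/-- **V_main1.** -/
def V_main1 : Prop := ∀ (n : ℕ) (S : SLC n),
  (∃! Q : Fin n → ℕ → S.Rep, S.KRFamily Q) ∧
  ∀ k : ℕ, 1 ≤ k → (∃ (V : Type) (_ : CommRing V), Nonempty (S.Verlinde k V)) ∧
    ∀ Q : Fin n → ℕ → S.Rep, S.KRFamily Q → ∀ (V : Type) [CommRing V] (R : S.Verlinde k V) i,
      (∀ m ≤ k, (∀ la, 0 ≤ R.b.repr (R.pi (Q i m)) la) ∧ R.pi (Q i m) ≠ 0) ∧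
      IsUnit (R.pi (Q i 0)) ∧ IsUnit (R.pi (Q i k)) ∧ R.pi (Q i (k + 1)) = 0

/-- **V_sin.** -/
def V_sin : Prop := ∀ (n : ℕ) (S : SLC n) (k : ℕ),
  (∀ mu i, S.qd k (mu - (mu i + 1) • S.rtw i) = - S.qd k mu) ∧
  (∀ mu, S.qd k (mu - (dot S.th mu - k - 1) • S.cv S.th) = - S.qd k mu) ∧
  (∀ la ∈ S.alc k, 0 < S.qd k la) ∧ S.qd k 0 = 1

/-- **V_qsg.** -/
def V_qsg : Prop := ∀ (n : ℕ) (S : SLC n) D, S.AffDat D → ∀ i (X : XDat D i) (k : ℕ),
  S.qd k (fp (X.sg (aw k 0))) = 1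

/-- **V_qexp.** -/
def V_qexp : Prop := ∀ (n : ℕ) (S : SLC n) (k : ℕ) (A : Finset (Fin n → ℤ)),
  (∀ la, la ∈ A ↔ la ∈ S.alc k) →
  (∀ mu, S.qd k mu = ∑ la ∈ A, (S.sgn k mu la : ℝ) * S.qd k la) ∧
  ∀ f : GR (Fin n), S.qdim k f = ∑ la ∈ A, (S.piK k f la : ℝ) * S.qd k la

/-- **V_main2.** -/
def V_main2 : Prop := ∀ (n : ℕ) (S : SLC n) (Q : Fin n → ℕ → S.Rep), S.KRFamily Q →
  ∀ (k : ℕ), 1 ≤ k → ∀ i, (∀ m ≤ k, 0 < S.qdim k (Q i m)) ∧ S.qdim k (Q i 0) = 1 ∧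
    S.qdim k (Q i k) = 1 ∧ S.qdim k (Q i (k + 1)) = 0

end SLC

end H391.KR
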