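import Pool.Agent.H391.KR.GC
import Pool.Agent.H391.KR.PF

/-!
# Quantum dimensions, two root lengths (H391/KR, part GV)
-/

noncomputable section

namespace H391.KR

open Finset

/-- real valued pairing of a function on weights with an element of the group ring -/
def pairR {ι : Type} (p : (ι → ℤ) → ℝ) (f : GR ι) : ℝ := f.coeff.sum fun mu c => (c : ℝ) * p mu

namespace GD

variable {n : ℕ} (S : GD n)

/-- simple reflection `i` on the weight lattice -/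
def refl (i : Fin n) : (Fin n → ℤ) →+ (Fin n → ℤ) where
  toFun mu := mu - mu i • S.rtw i
  map_zero' := by simp
  map_add' := by intro x y; funext j; simp only [Pi.add_apply, Pi.sub_apply, Pi.smul_apply,
    smul_eq_mul]; ring

/-- The representation ring: Weyl group invariants in the group ring of the weight lattice. -/
def Rep : Subring (GR (Fin n)) := ⨅ i, (push (S.refl i)).eqLocus (RingHom.id (GR (Fin n)))

/-- Weyl denominator: product of `1 - e^{-α}` over the positive roots `α` -/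
def Delta : GR (Fin n) := ∏ᶠ a ∈ S.pos, (1 - ex (-(S.rt a)))

/-- `∏ sin(τ (mu + ρ | α)) / sin(τ (ρ | α))` over the positive roots `α`; note that
`(mu | α) = dot a mu / tt a` for the coroot `a` of `α` -/
def qdR (τ : ℝ) (mu : Fin n → ℤ) : ℝ := ∏ᶠ a ∈ S.pos,
  (Real.sin (τ * (∑ i, a i * (mu i + 1) : ℤ) / (S.tt a : ℤ)) /
    Real.sin (τ * (∑ i, a i : ℤ) / (S.tt a : ℤ)))

open Classical in
/-- additive extension of `qdR` to the classes -/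
def qdimR (τ : ℝ) (f : GR (Fin n)) : ℝ :=
  (f * S.Delta).coeff.sum fun mu c => if ∀ i, 0 ≤ mu i then (c : ℝ) * S.qdR τ mu else 0

/-- the parameter of level `k` -/
def par (k : ℕ) : ℝ := Real.pi / ((k : ℝ) + (S.hv : ℤ))

/-- `2 (ρ | mu)` -/
def cc (mu : Fin n → ℤ) : ℝ := ∑ᶠ a ∈ S.pos, ((dot a mu : ℤ) : ℝ) / ((S.tt a : ℤ) : ℝ)

/-- multiplicity at level `k` of the dominant weight `la` -/
def lm (_S : GD n) (D : RDat (Option (Fin n)) (Option (Fin n))) (k : ℕ) (la : Fin n → ℤ)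
    (f : GR (Option (Fin n))) : ℤ := pair (D.pf (aw k la)) (ex (aw k 0) * f)

/-! ## Statements -/

/-- **H_fin.** The finite reflection datum. -/
def H_fin : Prop := ∀ (n : ℕ) (S : GD n), S.OK → ∃ D : RDat (Fin n) (Fin n),
  (∀ j x, D.co j x = x j) ∧ (∀ j, D.al j = S.rtw j) ∧ D.T = Set.univ ∧ D.HD (fun _ => 1) ∧
  (∀ b, ∃ a ∈ S.pos, (∀ x, D.ev b x = dot a x) ∧ D.rt b = S.rt a) ∧
  ∀ a ∈ S.pos, ∃ b, (∀ x, D.ev b x = dot a x) ∧ D.rt b = S.rt a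

open Classical in
/-- **H_AB.** Weyl's character formula; the Weyl denominator. -/
def H_AB : Prop := ∀ (n : ℕ) (S : GD n), S.OK →
  (∀ (f : S.Rep) (p : (Fin n → ℤ) → ℤ), (∀ mu i, p (mu - (mu i + 1) • S.rtw i) = - p mu) →
    ((f : GR (Fin n)) * S.Delta).coeff.sum (fun mu c => if ∀ i, 0 ≤ mu i then c * p mu else 0) =
      pair p (f : GR (Fin n))) ∧
  (∀ (f : S.Rep) (p : (Fin n → ℤ) → ℝ), (∀ mu i, p (mu - (mu i + 1) • S.rtw i) = - p mu) →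
    ((f : GR (Fin n)) * S.Delta).coeff.sum
      (fun mu c => if ∀ i, 0 ≤ mu i then (c : ℝ) * p mu else 0) = pairR p (f : GR (Fin n))) ∧
  (∀ ka, S.Delta.coeff ka ≠ 0 → ∃ w : List (Fin n),
    w.foldl (fun y j => y - y j • S.rtw j) (fun _ => 1) = ka + fun _ => 1) ∧
  ∀ ka i, S.Delta.coeff (ka - (ka i + 1) • S.rtw i) = - S.Delta.coeff ka

/-- **H_mem.** -/
def H_mem : Prop := ∀ (n : ℕ) (S : GD n), S.OK → ∀ D, S.AffDat D →
  (∀ f : S.Rep, SLC.Inv0 D (push aw0 (f : GR (Fin n)))) ∧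
  (∀ g, SLC.Inv0 D g → ∃ f : S.Rep, push aw0 (f : GR (Fin n)) = g) ∧
  ∀ f g : GR (Fin n), push aw0 f = push aw0 g → f = g

/-- **H_sin.** -/
def H_sin : Prop := ∀ (n : ℕ) (S : GD n), S.OK →
  (∀ τ mu i, S.qdR τ (mu - (mu i + 1) • S.rtw i) = - S.qdR τ mu) ∧
  (∀ k mu, S.qdR (S.par k) (mu - (dot S.th mu - k - 1) • S.rt S.th) = - S.qdR (S.par k) mu) ∧
  (∀ k, ∀ la ∈ S.alc k, 0 < S.qdR (S.par k) la) ∧
  (∀ τ : ℝ, 0 < τ → τ * S.hv ≤ Real.pi → S.qdR τ 0 = 1) ∧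
  (∀ τ : ℝ, 0 < τ → τ * S.hv ≤ Real.pi → ∀ mu : Fin n → ℤ, (∀ i, 0 ≤ mu i) →
    (∀ a ∈ S.pos, τ * (∑ i, a i * (mu i + 1) : ℤ) / (S.tt a : ℤ) < Real.pi) → 0 < S.qdR τ mu)

/-- **H_ev.** The quantum dimension is the value of the character at a point. -/
def H_ev : Prop := ∀ (n : ℕ) (S : GD n), S.OK → ∀ τ : ℝ, 0 < τ → τ * S.hv ≤ Real.pi →
  ∀ f : S.Rep, ((S.qdimR τ (f : GR (Fin n)) : ℝ) : ℂ) =
    (f : GR (Fin n)).coeff.sum fun mu c => (c : ℂ) * Complex.exp (Complex.I * (τ * S.cc mu : ℝ))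

/-- **H_mul.** The quantum dimension is a continuous family of ring homomorphisms. -/
def H_mul : Prop := ∀ (n : ℕ) (S : GD n), S.OK →
  (∀ τ : ℝ, 0 < τ → τ * S.hv ≤ Real.pi → ∃ e : S.Rep →+* ℝ,
    ∀ f : S.Rep, e f = S.qdimR τ (f : GR (Fin n))) ∧
  (∀ f : S.Rep, ContinuousOn (fun τ => S.qdimR τ (f : GR (Fin n)))
    {τ : ℝ | 0 < τ ∧ τ * S.hv ≤ Real.pi}) ∧
  ∀ (f : S.Rep) (la : Fin n → ℤ), (∀ i, 0 ≤ la i) →
    ((f : GR (Fin n)) * S.Delta).coeff la ≠ 0 →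
    (∀ mu : Fin n → ℤ, (∀ i, 0 ≤ mu i) → 0 ≤ ((f : GR (Fin n)) * S.Delta).coeff mu) →
    ∃ e : ℝ, 0 < e ∧ ∀ τ : ℝ, 0 < τ → τ < e → 0 < S.qdimR τ (f : GR (Fin n))

/-- **H_lev.** Expansion at level `k`. -/
def H_lev : Prop := ∀ (n : ℕ) (S : GD n), S.OK → ∀ D, S.AffDat D → ∀ k : ℕ,
  ∃ A : Finset (Fin n → ℤ), (∀ la, la ∈ A ↔ la ∈ S.alc k) ∧ ∀ f : S.Rep,
    S.qdimR (S.par k) (f : GR (Fin n)) =
      ∑ la ∈ A, (S.lm D k la (push aw0 (f : GR (Fin n))) : ℝ) * S.qdR (S.par k) la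

end GD

end H391.KR
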