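import Pool.Agent.H391.KR.PZ
import Pool.Agent.H391.KR.GT
import Pool.Agent.H391.KR.P.gdat
import Pool.Agent.H391.KR.P.ghd
import Pool.Agent.H391.KR.P.gsig
import Pool.Agent.H391.KR.P.gcov
import Pool.Agent.H391.KR.P.gstar
import Pool.Agent.H391.KR.P.gsd
import Pool.Agent.H391.KR.P.gX
import Pool.Agent.H391.KR.P.gadj
import Pool.Agent.H391.KR.P.gF
import Pool.Agent.H391.KR.P.gK
import Pool.Agent.H391.KR.P.gmain5
import Pool.Agent.H391.KR.P.gdem9
import Pool.Agent.H391.KR.P.gpos
import Pool.Agent.H391.KR.P.hfin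
import Pool.Agent.H391.KR.P.hab
import Pool.Agent.H391.KR.P.hmem
import Pool.Agent.H391.KR.P.hsin
import Pool.Agent.H391.KR.P.hev
import Pool.Agent.H391.KR.P.hmul
import Pool.Agent.H391.KR.P.hlev
import Pool.Agent.H391.KR.P.f4ok
import Pool.Agent.H391.KR.P.g2ok
import Pool.Agent.H391.KR.P.tred
import Pool.Agent.H391.KR.P.tlev
import Pool.Agent.H391.KR.P.tf4fin
import Pool.Agent.H391.KR.P.tg2p
import Pool.Agent.H391.KR.P.tg2s
import Pool.Agent.H391.KR.P.tg2a
import Pool.Agent.H391.KR.P.tg2fin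

namespace H391.KR.PA

theorem gdat : GD.G_dat := P_gdat.main
theorem ghd : GD.G_hd := P_ghd.main.1
theorem ginv0 : GD.G_inv0 := P_ghd.main.2
theorem gsig : GD.G_sig := P_gsig.main nred ndesc ndel ghd
theorem gcov : GD.G_cov := P_gcov.main cov
theorem gstar : GD.G_star := P_gstar.main nred ndesc ndel ghd
theorem gsd : GD.G_sd := P_gsd.main ndesc ndemw nop nadj ghd gcov gstar
theorem gX : GD.G_X := P_gX.main ndesc ndemw nop nadj ghd
theorem gadj : GD.G_adj := P_gadj.main ndesc ndemw ghd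
theorem gF : GD.G_F := P_gF.main bru nop nadj ghd ginv0 gsig gX
theorem gK : GD.G_K := P_gK.main nop nadj gsig gsd gX gadj gF
theorem gmain5 : GD.G_main5 := P_gmain5.main len cov cong chain fin bru int str inv wt
theorem gdem9 : GD.G_dem9 := P_gdem9.main len fin good bru main1 main3 gmain5
theorem gpos : GD.G_pos := P_gpos.main bru nop nadj nred nlink ghd gsig gcov gsd gX gF gdem9
theorem hfin : GD.H_fin := P_hfin.main
theorem hab : GD.H_AB := P_hab.main len nred ndesc ndel nlink hfin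
theorem hmem : GD.H_mem := P_hmem.main ginv0
theorem hsin : GD.H_sin := P_hsin.main
theorem hev : GD.H_ev := P_hev.main hab hsin
theorem hmul : GD.H_mul := P_hmul.main hab hsin hev
theorem hlev : GD.H_lev := P_hlev.main nred nlink ghd hab hsin
theorem f4ok : GD.T_F4 := P_f4ok.main
theorem g2ok : GD.T_G2 := P_g2ok.main
theorem tred : GD.T_red := P_tred.main ndemw ndesc gsig
theorem tlev : GD.T_lev := P_tlev.main ndem nlink gdat ghd gF gK gpos hmem hsin hmul hlev tred
theorem tf4fin : GD.T_F4fin := P_tf4fin.main f4ok tlev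
theorem tg2p : GD.T_G2p := P_tg2p.main g2ok hab hsin
theorem tg2s : GD.T_G2s := P_tg2s.main g2ok
theorem tg2a : GD.T_G2a := P_tg2a.main
theorem tg2fin : GD.T_G2fin := P_tg2fin.main g2ok hmul tg2p tg2s tg2a

end H391.KR.PA
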