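import Pool.Agent.H391.KR.GT

/-!
# Non simply laced types: the Verlinde ring (H391/KR, part J)
-/

noncomputable section

namespace H391.KR

open Finset

/-- type `B_n` (`n ≥ 3`), the last simple root is short -/
def Bt (n : ℕ) : GD n where
  C i j := if i = j then 2 else if (i : ℕ) + 1 = j then -1 else
    if (j : ℕ) + 1 = i then (if (i : ℕ) + 1 = n then -2 else -1) else 0
  t i := if (i : ℕ) + 1 = n then 2 else 1
  th i := if (i : ℕ) = 0 ∨ (i : ℕ) + 1 = n then 1 else 2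

/-- type `C_n` (`n ≥ 2`), the last simple root is long -/
def Ct (n : ℕ) : GD n where
  C i j := if i = j then 2 else if (i : ℕ) + 1 = j then (if (j : ℕ) + 1 = n then -2 else -1) else
    if (j : ℕ) + 1 = i then -1 else 0
  t i := if (i : ℕ) + 1 = n then 1 else 2
  th _ := 1

namespace GD

variable {n : ℕ} (S : GD n)

/-- The elementary facts on the root data which are used (non simply laced types; the longest
element acts by `-1`). -/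
structure OKs : Prop where
  t_pos : ∀ i, 1 ≤ S.t i
  symm : ∀ i j, S.t i * S.C j i = S.t j * S.C i j
  diag : ∀ i, S.C i i = 2
  off : ∀ i j, i ≠ j → S.C i j ≤ 0
  pd : ∀ a : Fin n → ℤ, a ≠ 0 → 0 < ∑ i, ∑ j, a i * S.C i j * S.t j * a j
  nd : ∀ a : Fin n → ℤ, (∀ j, dot a (S.rtw j) = 0) → a = 0
  nd' : ∀ g : Fin n → ℤ, (∑ j, g j • S.rtw j) = 0 → g = 0
  fin : {a | S.Cor a}.Finite
  sgn : ∀ a, S.Cor a → a ≠ 0 ∧ ((∀ i, 0 ≤ a i) ∨ ∀ i, a i ≤ 0)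
  om : ∀ i, S.tt (om i) = S.t i ∧ S.rt (om i) = S.rtw i
  two : ∀ a, S.Cor a → dot a (S.rt a) = 2
  refl : ∀ a b, S.Cor a → S.Cor b → S.Cor (b - dot b (S.rt a) • a) ∧
    S.tt (b - dot b (S.rt a) • a) = S.tt b ∧
    S.rt (b - dot b (S.rt a) • a) = S.rt b - dot a (S.rt b) • S.rt a
  pairs : ∀ a b, S.Cor a → S.Cor b → S.tt b * dot a (S.rt b) = S.tt a * dot b (S.rt a) ∧
    (S.tt a = S.tt b → dot a (S.rt b) = 2 → a = b) ∧ |dot a (S.rt b)| ≤ 3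
  prop : ∀ a, S.Cor a → ∀ i, (∀ k, k ≠ i → a k = 0) → a = H391.KR.om i ∨ a = -H391.KR.om i
  tt_pos : ∀ a, S.Cor a → 1 ≤ S.tt a
  tdvd : ∀ a, S.Cor a → ∀ i, S.tt a ∣ S.t i * a i
  rtc : ∀ a, S.Cor a → ∃ g : Fin n → ℤ, S.rt a = ∑ j, g j • S.rtw j ∧
    ∀ j, S.tt a * g j = S.t j * a j
  th_cor : S.Cor S.th ∧ S.tt S.th = 1
  th_pos : ∀ i, 1 ≤ S.th i
  th_dom : ∀ i, 0 ≤ S.rt S.th i
  th_pair : ∀ a, S.Cor a → a ≠ S.th → a ≠ -S.th → S.tt a ∣ dot a (S.rt S.th) ∧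
    |dot a (S.rt S.th)| ≤ S.tt a
  bnd : ∀ a, S.Cor a → ∀ i, a i ≤ S.tt a * S.th i
  w0 : ∃ w : List (Fin n), ∀ x : Fin n → ℤ, w.foldl (fun y j => y - y j • S.rtw j) x = -x

theorem OK.toOKs {S : GD n} (h : S.OK) : S.OKs where
  t_pos := h.t_pos
  symm := h.symm
  diag := h.diag
  off := h.off
  pd := h.pd
  nd := h.nd
  nd' := h.nd'
  fin := h.fin
  sgn := h.sgn
  om := h.om
  two := h.two
  refl := h.refl
  pairs := h.pairs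
  prop := h.prop
  tt_pos := h.tt_pos
  tdvd := h.tdvd
  rtc := h.rtc
  th_cor := h.th_cor
  th_pos := h.th_pos
  th_dom := h.th_dom
  th_pair := h.th_pair
  bnd := h.bnd
  w0 := h.w0

/-- Elementary conditions (lengths 1 and 2) from which `OKs` follows. -/
structure Pre : Prop where
  t12 : ∀ i, S.t i = 1 ∨ S.t i = 2
  symm : ∀ i j, S.t i * S.C j i = S.t j * S.C i j
  diag : ∀ i, S.C i i = 2
  off : ∀ i j, i ≠ j → S.C i j ≤ 0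
  pd : ∀ a : Fin n → ℤ, a ≠ 0 → 0 < ∑ i, ∑ j, a i * S.C i j * S.t j * a j
  thq : ∑ i, ∑ j, S.th i * S.C i j * S.t j * S.th j = 2
  thd : ∀ i, 0 ≤ ∑ j, S.C i j * S.t j * S.th j
  thp : ∀ i, 1 ≤ S.th i

/-- the quadratic form (twice `tt`) -/
def qf (a : Fin n → ℤ) : ℤ := ∑ i, ∑ j, a i * S.C i j * S.t j * a j

/-- Short coroots have norm `2`; long coroots have norm `4` and are divisible. -/
def Rr (a : Fin n → ℤ) : Prop := S.qf a = 2 ∨ (S.qf a = 4 ∧ ∀ i, 2 ∣ S.t i * a i)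

/-- Shape of the Dynkin diagrams of the types `B`, `C`, `F`. -/
structure T2 : Prop where
  t2 : ∀ i, S.t i = 1 ∨ S.t i = 2
  th2 : ∀ i, S.t i = 2 → S.th i ≤ 2
  ss : ∀ i j, S.t i = 2 → S.t j = 2 → i ≠ j → S.C i j = 0 ∨ S.C i j = -1
  sl : ∀ i j, S.t i = 2 → S.t j = 1 → (S.C i j = 0 ∧ S.C j i = 0) ∨ (S.C i j = -2 ∧ S.C j i = -1)
  nb2 : ∀ i, S.t i = 2 → (∑ j, if S.t j = 2 ∧ j ≠ i then -S.C i j else 0) ≤ 2

/-- the data defining the operator `X_i` -/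
structure XD (D : RDat (Option (Fin n)) (Option (Fin n))) (i : Fin n) where
  /-- word -/
  w : List (Option (Fin n))
  /-- diagram automorphism (weights) -/
  sg : (Option (Fin n) → ℤ) ≃+ (Option (Fin n) → ℤ)
  /-- diagram automorphism (nodes) -/
  ta : Option (Fin n) ≃ Option (Fin n)
  tw : D.Tw sg ta
  desc : D.Desc (some i :: w) (S.xi i)
  eq : ∀ x, sg x = D.sR (some i :: w) (S.tr i x)

variable {S} in
/-- the operator `X_i` -/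
def XD.X {D : RDat (Option (Fin n)) (Option (Fin n))} {i : Fin n} (X : S.XD D i) :
    GR (Option (Fin n)) →+ GR (Option (Fin n)) :=
  (D.demL (some i :: X.w)).comp
    (push (X.sg : (Option (Fin n) → ℤ) →+ (Option (Fin n) → ℤ))).toAddMonoidHom

variable {S} in
/-- the element `U_m` (index `t_i m + 1`) -/
def XD.U {D : RDat (Option (Fin n)) (Option (Fin n))} {i : Fin n} (X : S.XD D i) (m : ℕ) :
    GR (Option (Fin n)) := ex (aw (-(m : ℤ)) 0) * X.X (ex (aw (m : ℤ) (-om i)))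

/-- a reduced word for `aw 1 (t_i om_i)` which avoids the letter `i` -/
def AV (D : RDat (Option (Fin n)) (Option (Fin n))) (i : Fin n) : Prop :=
  ∃ v : List (Option (Fin n)), (∀ j ∈ v, j ≠ some i) ∧ D.Desc v (aw 1 (S.t i • om i)) ∧
    D.Dom (D.sR v (aw 1 (S.t i • om i)))

/-! ## Statements: engine -/

/-- **J_dat.** -/
def J_dat : Prop := ∀ (n : ℕ) (S : GD n), S.OKs → ∃ D, S.AffDat D

/-- **J_hd.** -/
def J_hd : Prop := ∀ (n : ℕ) (S : GD n), S.OKs → ∀ D, S.AffDat D → D.HD S.rho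

/-- **J_inv0.** -/
def J_inv0 : Prop := ∀ (n : ℕ) (S : GD n), S.OKs → ∀ D, S.AffDat D →
  ∀ f : GR (Option (Fin n)), (∀ j : Fin n, D.IsInv (some j) f) →
    (∀ x, f.coeff x ≠ 0 → x none = 0) → SLC.Inv0 D f

/-- **J_cov.** -/
def J_cov : Prop := ∀ (n : ℕ) (S : GD n), S.OKs → ∀ D, S.AffDat D → ∀ i,
  (∀ y, D.Step 1 0 (S.xi i) y → y = D.s (some i) (S.xi i)) ∧
  ∃ N0 : ℤ, ∀ N : ℤ, N0 ≤ N → ∀ y, D.Step 1 0 (aw N (-om i)) y →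
    y = D.s (some i) (aw N (-om i))

/-- **J_star.** -/
def J_star : Prop := ∀ (n : ℕ) (S : GD n), S.OKs → ∀ D, S.AffDat D → ∀ i,
  ∃ c : List (Option (Fin n)), (∀ j ∈ c, ∃ k, j = some k) ∧
    (∀ N, D.Desc (some i :: c) (aw N fun _ => -1)) ∧
    ∀ x, D.sR (some i :: c) x = aw (x none) (-fp x)

/-- **J_sd.** -/
def J_sd : Prop := ∀ (n : ℕ) (S : GD n), S.OKs → ∀ D, S.AffDat D → D.DemOK → ∀ i,
  ∃ c : List (Option (Fin n)), (∀ j ∈ c, ∃ k : Fin n, j = some k) ∧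
  (∀ m, D.Dem (S.xi i) m = D.demL (some i :: c) (D.Dem (aw 1 (S.t i • om i)) m)) ∧
  (∀ m, D.Dem (D.s (some i) (S.xi i)) m = D.demL c (D.Dem (aw 1 (S.t i • om i)) m)) ∧
  ∀ l : ℤ, ex (aw l (-om i)) = D.demL (some i :: c).reverse (ex (aw l (om i))) -
    D.demL c.reverse (ex (aw l (om i)))

/-- **J_sig.** Existence of the operators, for any given word. -/
def J_sig : Prop := ∀ (n : ℕ) (S : GD n), S.OKs → ∀ D, S.AffDat D → ∀ i,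
  (∀ w, D.Desc (some i :: w) (S.xi i) → D.Dom (D.sR (some i :: w) (S.xi i)) →
    ∃ X : S.XD D i, X.w = w) ∧ Nonempty (S.XD D i)

/-- **J_X.** -/
def J_X : Prop := ∀ (n : ℕ) (S : GD n), S.OKs → ∀ D, S.AffDat D → D.DemOK → ∀ i (X : S.XD D i),
  (∀ phi, SLC.Inv0 D phi → push (X.sg : (Option (Fin n) → ℤ) →+ (Option (Fin n) → ℤ)) phi = phi) ∧
  (∀ phi f, SLC.Inv0 D phi → X.X (phi * f) = phi * X.X f) ∧
  (∀ m : ℕ, X.X (ex (aw m 0)) = D.Dem (S.xi i) m) ∧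
  (∀ la : Fin n → ℤ, (∀ j, 0 ≤ la j) → ∀ m, X.X (D.Dem (aw 1 (fun j => -(la j * S.t j))) m) =
    D.Dem (aw 1 (fun j => -(la j * S.t j) - S.t i * om i j)) m) ∧
  (∀ m, X.X (D.Dem (D.s (some i) (S.xi i)) m) =
    D.Dem (aw 1 (fun j => -(S.t i * (2 * om i j - S.C j i)))) m)

/-- **J_adj.** -/
def J_adj : Prop := ∀ (n : ℕ) (S : GD n), S.OKs → ∀ D, S.AffDat D → D.DemOK → ∀ i (X : S.XD D i),
  ∀ m : ℕ, D.demL (some i :: X.w).reverse (ex (aw m 0)) =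
    push (X.sg : (Option (Fin n) → ℤ) →+ (Option (Fin n) → ℤ)) (D.Dem (aw 1 (S.t i • om i)) m)

/-- **J_F.** -/
def J_F : Prop := ∀ (n : ℕ) (S : GD n), S.OKs → ∀ D, S.AffDat D → D.DemOK →
  (∀ i m, SLC.Inv0 D (S.F D i m)) ∧ (∀ i m, SLC.Inv0 D (S.T D i m)) ∧
  (∀ i (m : ℕ), ex (aw (m : ℤ) 0) * S.F D i m = D.Dem (S.xi i) m) ∧
  (∀ i (m : ℕ), D.Dem (S.xi i) m - D.Dem (D.s (some i) (S.xi i)) m =
    ex (aw (m : ℤ) (-om i)) * S.T D i m) ∧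
  (∀ (la : Fin n → ℕ) (m : ℕ), D.Dem (aw 1 (fun j => -((la j : ℤ) * S.t j))) m =
    ex (aw m 0) * ∏ j, S.F D j m ^ la j) ∧
  (∀ i (m : ℕ), D.Dem (aw 1 (fun j => -(S.t i * (2 * om i j - S.C j i)))) m =
    ex (aw m 0) * S.nb D i m) ∧ ∀ i, S.F D i 0 = 1

/-- **J_K.** The exact relation, and `U_m` at level `k`. -/
def J_K : Prop := ∀ (n : ℕ) (S : GD n), S.OKs → ∀ D, S.AffDat D → D.DemOK → ∀ i (X : S.XD D i),
  (∀ m : ℕ, S.F D i m ^ 2 - S.nb D i m = S.T D i m * X.U m) ∧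
  ∀ m k : ℕ, m ≤ k → ∀ p, D.Anti p → ∀ phi, SLC.Inv0 D phi →
    pair p (phi * (ex (aw k 0) * X.U m)) =
      pair (fun x => p (X.sg x)) (phi * (ex (aw k 0) * S.T D i (k - m)))

/-- **J_inj.** -/
def J_inj : Prop := ∀ (n : ℕ) (S : GD n), S.OKs → ∀ D, S.AffDat D → ∀ f, SLC.Inv0 D f → ∀ k0 : ℤ,
  (∀ k : ℤ, k0 ≤ k → ∀ p, D.Anti p → pair p (ex (aw k 0) * f) = 0) → f = 0

/-- **J_pos.** Positivity, the simple current, and vanishing. -/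
def J_pos : Prop := ∀ (n : ℕ) (S : GD n), S.OKs → ∀ D, S.AffDat D → D.DemOK → ∀ i,
  (∀ k m : ℕ, m ≤ k → (∀ la, D.Dom la → 0 ≤ pair (D.pf la) (ex (aw k 0) * S.F D i m)) ∧
    ∃ la ∈ S.alc k, pair (D.pf (aw k la)) (ex (aw k 0) * S.F D i m) ≠ 0) ∧
  (∀ k m : ℕ, m ≤ k → ∀ la, D.Dom la → 0 ≤ pair (D.pf la) (ex (aw k 0) * S.T D i m)) ∧
  (∀ (X : S.XD D i) (k : ℕ) p, D.Anti p → ∀ phi, SLC.Inv0 D phi →
    pair p (phi * (ex (aw k 0) * S.F D i k)) = pair (fun x => p (X.sg x)) (phi * ex (aw k 0))) ∧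
  (∀ k : ℕ, ∃ N : ℕ, 0 < N ∧ ∀ p, D.Anti p → ∀ phi, SLC.Inv0 D phi →
    pair p (phi * (ex (aw k 0) * S.F D i k ^ N)) = pair p (phi * ex (aw k 0))) ∧
  (∀ k : ℕ, 1 ≤ k → ∀ p, D.Anti p → ∀ phi, SLC.Inv0 D phi →
    pair p (phi * (ex (aw k 0) * S.F D i (k + 1))) = 0)

/-- **J_low.** Supports of the elements `T_m`. -/
def J_low : Prop := ∀ (n : ℕ) (S : GD n), S.OKs → ∀ D, S.AffDat D → D.DemOK → ∀ i (m : ℕ) mu,
  (S.T D i m).coeff (aw 0 mu) ≠ 0 →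
    ∃ g : Fin n → ℕ, mu = (S.t i * m - 1) • om i - ∑ j, (g j : ℤ) • S.rtw j

/-- **J_V1.** `U_m = T_{m+1}`. -/
def J_V1 : Prop := ∀ (n : ℕ) (S : GD n), S.OKs → ∀ D, S.AffDat D → D.DemOK → ∀ i, S.t i = 2 →
  S.th i = 1 → S.AV D i → ∃ X : S.XD D i, ∀ m : ℕ, S.T D i m ≠ 0 → X.U m = S.T D i (m + 1)

/-- word for the short node in type `G_2` -/
def wG2 : List (Option (Fin 2)) := [some 1, some 0, some 1, some 0, none, some 1, some 0,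
  some 1, none]

/-- **J_G2.** The identities in type `G_2`. -/
def J_G2 : Prop := ∀ D, G2.AffDat D → D.DemOK → D.Desc (some 0 :: wG2) (G2.xi 0) ∧
  (∀ x, D.sR (some 0 :: wG2) (G2.tr 0 x) = x) ∧ ∀ U : ℕ → GR (Option (Fin 2)),
  (∀ m : ℕ, U m = ex (aw (-(m : ℤ)) 0) * D.demL (some 0 :: wG2) (ex (aw (m : ℤ) (-om 0)))) →
  (∀ m, SLC.Inv0 D (U m)) ∧
  (∀ m, U m ^ 2 = G2.F D 0 m * G2.T D 0 (m + 1) + G2.F D 1 m ^ 2 * G2.F D 1 (m + 1)) ∧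
  U 0 = ex (aw 0 ![1, 0]) + ex (aw 0 ![-1, 1]) + ex (aw 0 ![2, -1]) + ex (aw 0 ![0, 0]) +
    ex (aw 0 ![-2, 1]) + ex (aw 0 ![1, -1]) + ex (aw 0 ![-1, 0])

/-- word for the last node in type `F_4` -/
def wF4 : List (Option (Fin 4)) := [some 2, some 1, some 0, some 2, some 1, some 2, some 3, some 2,
  some 1, some 0, some 2, some 1, some 2, some 3, none, some 0, some 1, some 2, some 1, some 0,
  none]

/-- **J_F4.** The identities in type `F_4`. -/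
def J_F4 : Prop := ∀ D, F4.AffDat D → D.DemOK → D.Desc (some 3 :: wF4) (F4.xi 3) ∧
  (∀ x, D.sR (some 3 :: wF4) (F4.tr 3 x) = x) ∧
  (∀ m : ℕ, ex (aw (-(m : ℤ)) 0) * D.demL (some 3 :: wF4) (ex (aw (m : ℤ) (-om 3))) =
    F4.T D 3 (m + 1)) ∧
  ∀ m : ℕ, F4.T D 3 (m + 1) ^ 2 = F4.F D 3 m * F4.F D 3 (m + 1) + F4.T D 2 (m + 1)

/-! ## Statements: root data -/

/-- **J_gen1.** -/
def J_gen1 : Prop := ∀ (n : ℕ) (S : GD n), S.Pre → (∀ a, S.Cor a ↔ S.Rr a) ∧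
  (∀ a, S.Rr a → a ≠ 0 ∧ ((∀ i, 0 ≤ a i) ∨ ∀ i, a i ≤ 0)) ∧ {a | S.Rr a}.Finite ∧
  ∀ a, S.Rr a → ∀ i, (∀ k, k ≠ i → a k = 0) → a = H391.KR.om i ∨ a = -H391.KR.om i

/-- **J_gen2.** -/
def J_gen2 : Prop := ∀ (n : ℕ) (S : GD n), S.Pre →
  (∃ w : List (Fin n), ∀ x : Fin n → ℤ, w.foldl (fun y j => y - y j • S.rtw j) x = -x) → S.OKs

/-- **J_Bpre.** -/
def J_Bpre : Prop := ∀ n : ℕ, 3 ≤ n → (Bt n).Pre ∧ (Bt n).T2

/-- **J_Cpre.** -/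
def J_Cpre : Prop := ∀ n : ℕ, 2 ≤ n → (Ct n).Pre ∧ (Ct n).T2

/-- **J_Bw0.** -/
def J_Bw0 : Prop := ∀ n : ℕ, 3 ≤ n →
  ∃ w : List (Fin n), ∀ x : Fin n → ℤ, w.foldl (fun y j => y - y j • (Bt n).rtw j) x = -x

/-- **J_Cw0.** -/
def J_Cw0 : Prop := ∀ n : ℕ, 2 ≤ n →
  ∃ w : List (Fin n), ∀ x : Fin n → ℤ, w.foldl (fun y j => y - y j • (Ct n).rtw j) x = -x

/-- **J_Bav.** -/
def J_Bav : Prop := ∀ n : ℕ, 3 ≤ n → ∀ D, (Bt n).AffDat D → ∀ i, (Bt n).t i = 2 →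
  (Bt n).th i = 1 ∧ (Bt n).AV D i

/-- **J_Cav.** -/
def J_Cav : Prop := ∀ n : ℕ, 2 ≤ n → ∀ D, (Ct n).AffDat D → ∀ i, (Ct n).t i = 2 →
  (Ct n).th i = 1 ∧ (Ct n).AV D i

end GD

end H391.KR
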