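import Pool.Agent.H391.KR.JC

/-!
# Non simply laced types: Verlinde ring, Kirillov-Reshetikhin families (H391/KR, part JV)
-/

noncomputable section

namespace H391.KR

open Finset

namespace GD

variable {n : ℕ} (S : GD n)

/-- Signed linkage at level `k`: `Lk k e mu nu` says that `mu = w . nu` for a product `w` of simple
affine reflections (shifted action), whose number has parity given by the sign `e`. -/
inductive Lk (k : ℕ) : ℤ → (Fin n → ℤ) → (Fin n → ℤ) → Prop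
  | refl (nu : Fin n → ℤ) : Lk k 1 nu nu
  | fin (e : ℤ) (mu nu : Fin n → ℤ) (i : Fin n) : Lk k e mu nu →
      Lk k (-e) (mu - (mu i + 1) • S.rtw i) nu
  | aff (e : ℤ) (mu nu : Fin n → ℤ) : Lk k e mu nu →
      Lk k (-e) (mu - (dot S.th mu - k - 1) • S.rt S.th) nu

open Classical in
/-- the sign with which the irreducible module `mu` contributes to `la` at level `k` (or `0`) -/
def sgnk (k : ℕ) (mu la : Fin n → ℤ) : ℤ :=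
  if S.Lk k 1 mu la then 1 else if S.Lk k (-1) mu la then -1 else 0

open Classical in
/-- coefficient at `la` of the image of the class `f` in the Verlinde ring of level `k` -/
def piK (k : ℕ) (f : GR (Fin n)) (la : Fin n → ℤ) : ℤ :=
  (f * S.Delta).coeff.sum fun mu c => if ∀ i, 0 ≤ mu i then c * S.sgnk k mu la else 0

/-- the Verlinde ring of level `k`: a ring `V` with an additive isomorphism `co` to the free abelian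
group on the finite set `alc k`, and a homomorphism `pi` from the representation ring which is
given by `piK` in these coordinates -/
structure VRing (k : ℕ) (V : Type) [CommRing V] where
  co : V ≃+ (S.alc k → ℤ)
  pi : S.RepR →+* V
  pi_eq : ∀ f la, co (pi f) la = S.piK k (chr f) la

variable {S} in
/-- positive: a nonzero nonnegative integer combination of basis elements -/
def VRing.Pos {k : ℕ} {V : Type} [CommRing V] (R : S.VRing k V) (f : S.RepR) : Prop :=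
  (∀ la, 0 ≤ R.co (R.pi f) la) ∧ R.pi f ≠ 0

/-- the statements (a), (b), (c) for the node `i` -/
def Q1 {k : ℕ} {V : Type} [CommRing V] (R : S.VRing k V) (Q : Fin n → ℕ → S.RepR)
    (i : Fin n) : Prop :=
  (∀ m : ℕ, m ≤ (S.t i).toNat * k → R.Pos (Q i m)) ∧ IsUnit (R.pi (Q i 0)) ∧
    IsUnit (R.pi (Q i ((S.t i).toNat * k))) ∧ R.pi (Q i ((S.t i).toNat * k + 1)) = 0

/-- `Redd w x y`: `w` is a reduced word which moves `x` to `y` (each letter acts at a negative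
value, the first letter acts first) -/
def Redd : List (Option (Fin n)) → (Option (Fin n) → ℤ) → (Option (Fin n) → ℤ) → Prop
  | [], x, y => x = y
  | j :: w, x, y => S.co j x < 0 ∧ Redd w (S.rf j x) y

/-- The family of the classes of the Kirillov-Reshetikhin modules. -/
structure KRMod (Q : Fin n → ℕ → S.RepR) : Prop where
  zero : ∀ i, Q i 0 = 1
  qsys : ∀ i m, Q i (m + 1) * Q i (m + 1) = Q i (m + 2) * Q i m + S.qnb Q i (m + 1)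
  pos : ∀ i m mu, (∀ j, 0 ≤ mu j) → 0 ≤ S.mult (Q i m) mu
  top : ∀ i (m : ℕ), S.mult (Q i m) ((m : ℤ) • om i) = 1
  low : ∀ i (m : ℕ) mu, (∀ j, 0 ≤ mu j) → S.mult (Q i m) mu ≠ 0 →
    ∃ g : Fin n → ℕ, mu = (m : ℤ) • om i - ∑ j, (g j : ℤ) • S.rtw j
  dem : ∀ i (m : ℕ) w y, S.Redd w (S.xi i) y → (∀ j, 0 ≤ S.co j y) →
    ex (aw (m : ℤ) 0) * push aw0 (chr (Q i ((S.t i).toNat * m))) =
      w.foldr S.dm (ex ((m : ℤ) • y))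
  fund : ∀ i, S.t i ≠ 1 → S.th i = 1 → ∀ mu, (∀ j, 0 ≤ mu j) → mu ≠ om i →
    S.mult (Q i 1) mu = 0

/-! ## Finite statements for `OKs` -/

/-- **J_fin.** -/
def J_fin : Prop := ∀ (n : ℕ) (S : GD n), S.OKs → ∃ D : RDat (Fin n) (Fin n),
  (∀ j x, D.co j x = x j) ∧ (∀ j, D.al j = S.rtw j) ∧ D.T = Set.univ ∧ D.HD (fun _ => 1) ∧
  (∀ b, ∃ a ∈ S.pos, (∀ x, D.ev b x = dot a x) ∧ D.rt b = S.rt a) ∧
  ∀ a ∈ S.pos, ∃ b, (∀ x, D.ev b x = dot a x) ∧ D.rt b = S.rt a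

open Classical in
/-- **J_AB.** -/
def J_AB : Prop := ∀ (n : ℕ) (S : GD n), S.OKs →
  (∀ (f : S.Rep) (p : (Fin n → ℤ) → ℤ), (∀ mu i, p (mu - (mu i + 1) • S.rtw i) = - p mu) →
    ((f : GR (Fin n)) * S.Delta).coeff.sum (fun mu c => if ∀ i, 0 ≤ mu i then c * p mu else 0) =
      pair p (f : GR (Fin n))) ∧
  (∀ (f : S.Rep) (p : (Fin n → ℤ) → ℝ), (∀ mu i, p (mu - (mu i + 1) • S.rtw i) = - p mu) →
    ((f : GR (Fin n)) * S.Delta).coeff.sum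
      (fun mu c => if ∀ i, 0 ≤ mu i then (c : ℝ) * p mu else 0) = pairR p (f : GR (Fin n))) ∧
  (∀ ka, S.Delta.coeff ka ≠ 0 → ∃ w : List (Fin n),
    w.foldl (fun y j => y - y j • S.rtw j) (fun _ => 1) = ka + fun _ => 1) ∧
  ∀ ka i, S.Delta.coeff (ka - (ka i + 1) • S.rtw i) = - S.Delta.coeff ka

/-- **J_mem.** -/
def J_mem : Prop := ∀ (n : ℕ) (S : GD n), S.OKs → ∀ D, S.AffDat D →
  (∀ f : S.Rep, SLC.Inv0 D (push aw0 (f : GR (Fin n)))) ∧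
  (∀ g, SLC.Inv0 D g → ∃ f : S.Rep, push aw0 (f : GR (Fin n)) = g) ∧
  ∀ f g : GR (Fin n), push aw0 f = push aw0 g → f = g

/-- **J_sin.** -/
def J_sin : Prop := ∀ (n : ℕ) (S : GD n), S.OKs →
  (∀ τ mu i, S.qdR τ (mu - (mu i + 1) • S.rtw i) = - S.qdR τ mu) ∧
  (∀ k mu, S.qdR (S.par k) (mu - (dot S.th mu - k - 1) • S.rt S.th) = - S.qdR (S.par k) mu) ∧
  (∀ k, ∀ la ∈ S.alc k, 0 < S.qdR (S.par k) la) ∧
  (∀ τ : ℝ, 0 < τ → τ * S.hv ≤ Real.pi → S.qdR τ 0 = 1) ∧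
  (∀ τ : ℝ, 0 < τ → τ * S.hv ≤ Real.pi → ∀ mu : Fin n → ℤ, (∀ i, 0 ≤ mu i) →
    (∀ a ∈ S.pos, τ * (∑ i, a i * (mu i + 1) : ℤ) / (S.tt a : ℤ) < Real.pi) → 0 < S.qdR τ mu)

/-- **J_ev.** -/
def J_ev : Prop := ∀ (n : ℕ) (S : GD n), S.OKs → ∀ τ : ℝ, 0 < τ → τ * S.hv ≤ Real.pi →
  ∀ f : S.Rep, ((S.qdimR τ (f : GR (Fin n)) : ℝ) : ℂ) =
    (f : GR (Fin n)).coeff.sum fun mu c => (c : ℂ) * Complex.exp (Complex.I * (τ * S.cc mu : ℝ))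

/-- **J_mul.** -/
def J_mul : Prop := ∀ (n : ℕ) (S : GD n), S.OKs →
  (∀ τ : ℝ, 0 < τ → τ * S.hv ≤ Real.pi → ∃ e : S.Rep →+* ℝ,
    ∀ f : S.Rep, e f = S.qdimR τ (f : GR (Fin n))) ∧
  (∀ f : S.Rep, ContinuousOn (fun τ => S.qdimR τ (f : GR (Fin n)))
    {τ : ℝ | 0 < τ ∧ τ * S.hv ≤ Real.pi}) ∧
  ∀ (f : S.Rep) (la : Fin n → ℤ), (∀ i, 0 ≤ la i) →
    ((f : GR (Fin n)) * S.Delta).coeff la ≠ 0 →
    (∀ mu : Fin n → ℤ, (∀ i, 0 ≤ mu i) → 0 ≤ ((f : GR (Fin n)) * S.Delta).coeff mu) →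
    ∃ e : ℝ, 0 < e ∧ ∀ τ : ℝ, 0 < τ → τ < e → 0 < S.qdimR τ (f : GR (Fin n))

/-- **J_lev.** -/
def J_lev : Prop := ∀ (n : ℕ) (S : GD n), S.OKs → ∀ D, S.AffDat D → ∀ k : ℕ,
  ∃ A : Finset (Fin n → ℤ), (∀ la, la ∈ A ↔ la ∈ S.alc k) ∧ ∀ f : S.Rep,
    S.qdimR (S.par k) (f : GR (Fin n)) =
      ∑ la ∈ A, (S.lm D k la (push aw0 (f : GR (Fin n))) : ℝ) * S.qdR (S.par k) la

/-! ## Verlinde ring -/

/-- **J_pik.** -/
def J_pik : Prop := ∀ (n : ℕ) (S : GD n), S.OKs → ∀ D, S.AffDat D → ∀ (k : ℕ),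
  (∀ mu la, S.sgnk k mu la = D.pf (aw k la) (aw k mu)) ∧
  (∀ la, la ∈ S.alc k ↔ D.Dom (aw k la)) ∧
  (∀ (f : S.Rep), ∀ la ∈ S.alc k,
    S.piK k f la = pair (D.pf (aw k la)) (ex (aw k 0) * push aw0 (f : GR (Fin n))))

/-- **J_exp.** -/
def J_exp : Prop := ∀ (n : ℕ) (S : GD n), S.OKs → ∀ D, S.AffDat D → ∀ (k : ℕ), (S.alc k).Finite ∧
  ∀ A : Finset (Fin n → ℤ), (∀ la, la ∈ A ↔ la ∈ S.alc k) → ∀ p, D.Anti p →
    ∀ f : GR (Option (Fin n)), (∀ x, f.coeff x ≠ 0 → x none = 0) → pair p (ex (aw k 0) * f) =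
      ∑ la ∈ A, p (aw k la) * pair (D.pf (aw k la)) (ex (aw k 0) * f)

/-- **J_ker.** -/
def J_ker : Prop := ∀ (n : ℕ) (S : GD n), S.OKs → ∀ D, S.AffDat D → ∀ (k : ℕ) f g,
  SLC.Inv0 D f → SLC.Inv0 D g →
  (∀ la ∈ S.alc k, pair (D.pf (aw k la)) (ex (aw k 0) * f) = 0) →
  ∀ p, D.Anti p → pair p (ex (aw k 0) * (g * f)) = 0

/-- **J_surj.** -/
def J_surj : Prop := ∀ (n : ℕ) (S : GD n), S.OKs → ∀ D, S.AffDat D → D.DemOK → ∀ (k : ℕ),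
  ∀ la ∈ S.alc k, ∃ f, SLC.Inv0 D f ∧ ∀ p, D.Anti p → pair p (ex (aw k 0) * f) = p (aw k la)

/-- **J_ring.** -/
def J_ring : Prop := ∀ (n : ℕ) (S : GD n), S.OKs → ∀ k : ℕ, ∃ (V : Type) (_ : CommRing V),
  Nonempty (S.VRing k V)

/-- **J_red.** -/
def J_red : Prop := ∀ (n : ℕ) (S : GD n), S.OKs → ∀ D, S.AffDat D →
  (∀ w f, D.demL w f = w.foldr S.dm f) ∧
  (∀ i, ∃ w y, S.Redd w (S.xi i) y ∧ ∀ j, 0 ≤ S.co j y) ∧
  ∀ i w y, S.Redd w (S.xi i) y → (∀ j, 0 ≤ S.co j y) → ∀ m : ℕ, D.DemOK →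
    w.foldr S.dm (ex ((m : ℤ) • y)) = D.Dem (S.xi i) m

/-- **J_kr.** -/
def J_kr : Prop := ∀ (n : ℕ) (S : GD n), S.OKs → ∀ D, S.AffDat D → D.DemOK → ∀ Q, S.KRMod Q →
  (∀ i (m : ℕ), push aw0 (chr (Q i ((S.t i).toNat * m))) = S.F D i m) ∧
  (∀ i (m : ℕ), push aw0 (chr (S.qnb Q i ((S.t i).toNat * m))) = S.nb D i m) ∧
  ∀ i m, chr (Q i m) ≠ 0

/-- **J_lvV.** Level `k`, Verlinde ring. -/
def J_lvV : Prop := ∀ (n : ℕ) (S : GD n), S.OKs → ∀ D, S.AffDat D → D.DemOK →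
  ∀ (i : Fin n) (Fe Te : ℕ → S.RepR), (∀ m, push aw0 (chr (Fe m)) = S.F D i m) →
  (∀ m, push aw0 (chr (Te m)) = S.T D i m) → ∀ k : ℕ, 1 ≤ k → ∀ (V : Type) [CommRing V]
  (R : S.VRing k V), (∀ m ≤ k, R.Pos (Fe m)) ∧ (∀ m ≤ k, ∀ la, 0 ≤ R.co (R.pi (Te m)) la) ∧
  IsUnit (R.pi (Fe k)) ∧ R.pi (Fe (k + 1)) = 0 ∧ ∀ (X : S.XD D i) (m : ℕ) (u : S.RepR), m ≤ k →
    push aw0 (chr u) = X.U m → R.pi u = R.pi (Fe k) * R.pi (Te (k - m))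

/-- **J_lvq.** Level `k`, quantum dimensions. -/
def J_lvq : Prop := ∀ (n : ℕ) (S : GD n), S.OKs → ∀ D, S.AffDat D → D.DemOK →
  ∀ (i : Fin n) (Fe Te : ℕ → S.RepR), (∀ m, push aw0 (chr (Fe m)) = S.F D i m) →
  (∀ m, push aw0 (chr (Te m)) = S.T D i m) → ∀ k : ℕ, 1 ≤ k →
  (∀ m ≤ k, 0 < S.qdim k (Fe m)) ∧ S.qdim k (Fe k) = 1 ∧ (∀ m ≤ k, 0 ≤ S.qdim k (Te m)) ∧
  (∀ m ≤ k, ∀ g : S.RepR, push aw0 (chr g) = S.F D i m ^ 2 - S.nb D i m →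
    S.qdim k g = S.qdim k (Te m) * S.qdim k (Te (k - m))) ∧
  ∀ (X : S.XD D i) (m : ℕ) (u : S.RepR), m ≤ k → push aw0 (chr u) = X.U m →
    S.qdim k u = S.qdim k (Te (k - m))

/-- **J_qk.** -/
def J_qk : Prop := ∀ (n : ℕ) (S : GD n), S.OKs → ∀ k : ℕ, 1 ≤ k →
  (∃ e : S.RepR →+* ℝ, ∀ f, e f = S.qdim k f) ∧
  (∀ f : S.RepR, (∀ la ∈ S.alc k, S.piK k (chr f) la = 0) → S.qdim k f = 0) ∧
  ∀ (Q : Fin n → ℕ → S.RepR), S.KRMod Q → ∀ (i : Fin n) (m : ℕ), (m : ℤ) * S.th i ≤ k →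
    0 < S.qdim k (Q i m)

/-- **J_mz.** -/
def J_mz : Prop := ∀ (n : ℕ) (S : GD n), S.OKs → ∀ f : S.RepR,
  (∀ mu, (∀ i, 0 ≤ mu i) → S.mult f mu = 0) → f = 0

/-- **J_num.** -/
def J_num : Prop := ∀ (I : Type) [Fintype I] (A B x y : I → ℝ) (c : I → I → ℕ),
  (∀ i, ∑ j, c i j ≤ 2) → (∀ i, 0 < A i) → (∀ i, 0 ≤ B i) → (∀ i, 0 < x i) → (∀ i, 0 < y i) →
  (∀ i, x i ^ 2 = A i + B i * ∏ j, x j ^ c i j) → (∀ i, y i ^ 2 = A i + B i * ∏ j, y j ^ c i j) →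
  x = y

/-- **J_t1.** Multiplicities of the elements `T_m`. -/
def J_t1 : Prop := ∀ (n : ℕ) (S : GD n), S.OKs → ∀ D, S.AffDat D → D.DemOK → ∀ i (m : ℕ)
  (f : S.RepR), push aw0 (chr f) = S.T D i m → ∀ mu, (∀ j, 0 ≤ mu j) → 0 ≤ S.mult f mu ∧
    (S.mult f mu ≠ 0 → ∃ g : Fin n → ℕ, mu = (S.t i * m - 1) • om i - ∑ j, (g j : ℤ) • S.rtw j)

/-- **J_base.** The first odd element. -/
def J_base : Prop := ∀ (n : ℕ) (S : GD n), S.OKs → S.T2 → ∀ D, S.AffDat D → D.DemOK →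
  ∀ Q, S.KRMod Q → ∀ i, S.t i = 2 → S.th i = 1 →
  (∀ m : ℕ, S.F D i m ^ 2 - S.nb D i m = S.T D i m * S.T D i (m + 1)) →
  (∃ X : S.XD D i, ∀ m : ℕ, S.T D i m ≠ 0 → X.U m = S.T D i (m + 1)) →
  push aw0 (chr (Q i 1)) = S.T D i 1

/-- **J_odd.** -/
def J_odd : Prop := ∀ (n : ℕ) (S : GD n), S.OKs → S.T2 → ∀ D, S.AffDat D → D.DemOK →
  ∀ Q, S.KRMod Q → ∀ i, S.t i = 2 → S.th i = 1 →
  (∃ X : S.XD D i, ∀ m : ℕ, S.T D i m ≠ 0 → X.U m = S.T D i (m + 1)) →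
  (∀ m : ℕ, push aw0 (chr (Q i (2 * m + 1))) = S.T D i (m + 1)) ∧ ∀ m, S.T D i (m + 1) ≠ 0

/-- **J_two.** All nodes, if the odd elements of the short nodes are known. -/
def J_two : Prop := ∀ (n : ℕ) (S : GD n), S.OKs → S.T2 → ∀ D, S.AffDat D → D.DemOK →
  ∀ Q, S.KRMod Q →
  (∀ i, S.t i = 2 → ∀ m : ℕ, push aw0 (chr (Q i (2 * m + 1))) = S.T D i (m + 1)) →
  ∀ k : ℕ, 1 ≤ k → ∀ (V : Type) [CommRing V] (R : S.VRing k V),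
  (∀ i, S.t i = 2 → R.pi (Q i (2 * k + 1)) = 0) → ∀ i, S.Q1 R Q i

/-- **J_BC.** -/
def J_BC : Prop := ∀ (n : ℕ) (S : GD n), S.OKs → S.T2 → ∀ D, S.AffDat D → D.DemOK →
  (∀ i, S.t i = 2 → S.th i = 1 ∧ S.AV D i) → ∀ Q, S.KRMod Q →
  ∀ k : ℕ, 1 ≤ k → ∀ (V : Type) [CommRing V] (R : S.VRing k V), ∀ i, S.Q1 R Q i

/-- **J_F4fin.** -/
def J_F4fin : Prop := ∀ Q, F4.KRMod Q → ∀ k : ℕ, 1 ≤ k → ∀ (V : Type) [CommRing V]
  (R : F4.VRing k V), ∀ i, F4.Q1 R Q i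

/-- **J_G2b.** The seven dimensional module in type `G_2`. -/
def J_G2b : Prop := ∀ f : G2.RepR, chr f = ex ![1, 0] + ex ![-1, 1] + ex ![2, -1] + ex ![0, 0] +
    ex ![-2, 1] + ex ![1, -1] + ex ![-1, 0] →
  G2.mult f (om 0) = 1 ∧ ∀ mu, (∀ i, 0 ≤ mu i) → mu ≠ om 0 → G2.mult f mu = 0

/-- **J_G2fin.** -/
def J_G2fin : Prop := ∀ Q, G2.KRMod Q → ∀ k : ℕ, 1 ≤ k → ∀ (V : Type) [CommRing V]
  (R : G2.VRing k V), ∀ i, G2.Q1 R Q i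

end GD

end H391.KR
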