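import Pool.Agent.H391.KR.PG
import Pool.Agent.H391.KR.GZ
import Pool.Agent.H391.KR.JV
import Pool.Agent.H391.KR.P.jdat
import Pool.Agent.H391.KR.P.jhd
import Pool.Agent.H391.KR.P.jcov
import Pool.Agent.H391.KR.P.jstar
import Pool.Agent.H391.KR.P.jsd
import Pool.Agent.H391.KR.P.jfin
import Pool.Agent.H391.KR.P.jab
import Pool.Agent.H391.KR.P.jmem
import Pool.Agent.H391.KR.P.jsin
import Pool.Agent.H391.KR.P.jev
import Pool.Agent.H391.KR.P.jmul
import Pool.Agent.H391.KR.P.jlev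
import Pool.Agent.H391.KR.P.jsig
import Pool.Agent.H391.KR.P.jX
import Pool.Agent.H391.KR.P.jadj
import Pool.Agent.H391.KR.P.jF
import Pool.Agent.H391.KR.P.jK
import Pool.Agent.H391.KR.P.jinj
import Pool.Agent.H391.KR.P.jpos
import Pool.Agent.H391.KR.P.jlow
import Pool.Agent.H391.KR.P.jV1
import Pool.Agent.H391.KR.P.jG2
import Pool.Agent.H391.KR.P.jF4
import Pool.Agent.H391.KR.P.jgen1
import Pool.Agent.H391.KR.P.jgen2
import Pool.Agent.H391.KR.P.jBpre
import Pool.Agent.H391.KR.P.jCpre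
import Pool.Agent.H391.KR.P.jBw0
import Pool.Agent.H391.KR.P.jCw0
import Pool.Agent.H391.KR.P.jBav
import Pool.Agent.H391.KR.P.jCav
import Pool.Agent.H391.KR.P.jpik
import Pool.Agent.H391.KR.P.jexp
import Pool.Agent.H391.KR.P.jker
import Pool.Agent.H391.KR.P.jsurj
import Pool.Agent.H391.KR.P.jring
import Pool.Agent.H391.KR.P.jred
import Pool.Agent.H391.KR.P.jkr
import Pool.Agent.H391.KR.P.jlvV
import Pool.Agent.H391.KR.P.jlvq
import Pool.Agent.H391.KR.P.jqk
import Pool.Agent.H391.KR.P.jmz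
import Pool.Agent.H391.KR.P.jnum
import Pool.Agent.H391.KR.P.jt1
import Pool.Agent.H391.KR.P.jbase
import Pool.Agent.H391.KR.P.jodd
import Pool.Agent.H391.KR.P.jtwo
import Pool.Agent.H391.KR.P.jBC
import Pool.Agent.H391.KR.P.jG2b
import Pool.Agent.H391.KR.P.jF4fin
import Pool.Agent.H391.KR.P.jG2fin

namespace H391.KR.PA

theorem jdat : GD.J_dat := P_jdat.main
theorem jhd : GD.J_hd := P_jhd.main.1
theorem jinv0 : GD.J_inv0 := P_jhd.main.2
theorem jcov : GD.J_cov := P_jcov.main cov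
theorem jstar : GD.J_star := P_jstar.main nred ndesc ndel jhd
theorem jsd : GD.J_sd := P_jsd.main ndesc ndemw nop nadj jhd jcov jstar
theorem jfin : GD.J_fin := P_jfin.main
theorem jab : GD.J_AB := P_jab.main len nred ndesc ndel nlink jfin
theorem jmem : GD.J_mem := P_jmem.main jinv0
theorem jsin : GD.J_sin := P_jsin.main
theorem jev : GD.J_ev := P_jev.main jab jsin
theorem jmul : GD.J_mul := P_jmul.main jab jsin jev
theorem jlev : GD.J_lev := P_jlev.main nred nlink jhd jab jsin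
theorem jsig : GD.J_sig := P_jsig.main len nred ndesc jhd
theorem jX : GD.J_X := P_jX.main ndesc ndemw nop nadj ntw jhd
theorem jadj : GD.J_adj := P_jadj.main ndesc ndemw ntw jhd
theorem jF : GD.J_F := P_jF.main bru nop nadj jhd jinv0 jsig jX
theorem jK : GD.J_K := P_jK.main nop nadj ntw jhd jsd jX jadj jF
theorem jinj : GD.J_inj := P_jinj.main len nred nlink jhd
theorem jpos : GD.J_pos := P_jpos.main bru nop nadj ntw nred nlink gdem9 jhd jcov jsd jsig jX jF
theorem jlow : GD.J_low := P_jlow.main len refl cong bru jF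
theorem jV1 : GD.J_V1 := P_jV1.main nred ndesc ndel ndemw nop nadj ntw jhd jstar jsd jsig jX jF jK
  jinj
theorem jG2 : GD.J_G2 := P_jG2.main ndesc ndemw nop nadj g2ok jinv0 jF
theorem jF4 : GD.J_F4 := P_jF4.main ndemw nadj f4ok jF
theorem jgen1 : GD.J_gen1 := P_jgen1.main
theorem jgen2 : GD.J_gen2 := P_jgen2.main jgen1
theorem jBpre : GD.J_Bpre := P_jBpre.main
theorem jCpre : GD.J_Cpre := P_jCpre.main
theorem jBw0 : GD.J_Bw0 := P_jBw0.main
theorem jCw0 : GD.J_Cw0 := P_jCw0.main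
theorem jBav : GD.J_Bav := P_jBav.main nred
theorem jCav : GD.J_Cav := P_jCav.main nred
theorem jpik : GD.J_pik := P_jpik.main nlink jhd jab
theorem jexp : GD.J_exp := P_jexp.main nred nlink jhd
theorem jker : GD.J_ker := P_jker.main nlink jexp
theorem jsurj : GD.J_surj := P_jsurj.main nop nadj nred ndesc ndemw jhd jinv0 jstar
theorem jring : GD.J_ring := P_jring.main ndem nlink jdat jhd jpik jmem jexp jker jsurj
theorem jred : GD.J_red := P_jred.main nred ndemw ndesc jhd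
theorem jkr : GD.J_kr := P_jkr.main jF jmem jred
theorem jlvV : GD.J_lvV := P_jlvV.main nlink jhd jpik jmem jF jK jpos
theorem jlvq : GD.J_lvq := P_jlvq.main nlink jhd jsig jmem jsin jmul jlev jF jK jpos
theorem jqk : GD.J_qk := P_jqk.main jdat jhd jpik jmem jsin jmul jlev
theorem jmz : GD.J_mz := P_jmz.main nred jfin
theorem jnum : GD.J_num := P_jnum.main
theorem jt1 : GD.J_t1 := P_jt1.main nlink jhd jmem jab jpos jlow
theorem jbase : GD.J_base := P_jbase.main jmem jsin jF jlow jkr jlvq jqk jmz jnum jt1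
theorem jodd : GD.J_odd := P_jodd.main jmem jF jK jkr jbase
theorem jtwo : GD.J_two := P_jtwo.main jmem jF jkr jlvV jlvq jqk
theorem jBC : GD.J_BC := P_jBC.main jmem jF jV1 jkr jlvV jodd jtwo
theorem jG2b : GD.J_G2b := P_jG2b.main nred nlink g2ok jfin jab
theorem jF4fin : GD.J_F4fin := P_jF4fin.main ndem ndesc jdat jhd f4ok jsig jmem jF jK jF4 jkr jlvV
  jodd jtwo
theorem jG2fin : GD.J_G2fin := P_jG2fin.main ndem nlink jdat jhd g2ok jsig jmem jF jK jpos jpik jG2
  jG2b jkr jlvV jlvq jqk jmz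

end H391.KR.PA

noncomputable section

namespace H391.KR.GD

/-- Q1 for the root datum `S`: for every level `k`, the Verlinde ring exists, and (a), (b), (c) hold for
every node and the family of Kirillov-Reshetikhin modules. -/
def Main {n : ℕ} (S : GD n) : Prop := ∀ k : ℕ, 1 ≤ k →
  (∃ (V : Type) (_ : CommRing V), Nonempty (S.VRing k V)) ∧
    ∀ Q : Fin n → ℕ → S.RepR, S.KRMod Q → ∀ (V : Type) [CommRing V] (R : S.VRing k V) i,
      S.Q1 R Q i

theorem main_of {n : ℕ} (S : GD n) (hS : S.OKs)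
    (h : ∀ Q, S.KRMod Q → ∀ k : ℕ, 1 ≤ k → ∀ (V : Type) [CommRing V] (R : S.VRing k V),
      ∀ i, S.Q1 R Q i) : S.Main := fun k hk =>
  ⟨PA.jring n S hS k, fun Q hQ V _ R i => h Q hQ k hk V R i⟩

theorem main_BC {n : ℕ} (S : GD n) (hS : S.OKs) (h2 : S.T2)
    (hav : ∀ D, S.AffDat D → ∀ i, S.t i = 2 → S.th i = 1 ∧ S.AV D i) : S.Main := by
  refine S.main_of hS fun Q hQ k hk V _ R i => ?_
  obtain ⟨D, hD⟩ := PA.jdat n S hS
  have hd : D.DemOK := PA.ndem _ _ D S.rho (PA.jhd n S hS D hD)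
  exact PA.jBC n S hS h2 D hD hd (hav D hD) Q hQ k hk V R i

theorem main_B (n : ℕ) (hn : 3 ≤ n) : (Bt n).Main :=
  main_BC _ (PA.jgen2 n _ (PA.jBpre n hn).1 (PA.jBw0 n hn)) (PA.jBpre n hn).2
    fun D hD i hi => PA.jBav n hn D hD i hi

theorem main_C (n : ℕ) (hn : 2 ≤ n) : (Ct n).Main :=
  main_BC _ (PA.jgen2 n _ (PA.jCpre n hn).1 (PA.jCw0 n hn)) (PA.jCpre n hn).2
    fun D hD i hi => PA.jCav n hn D hD i hi

theorem main_F4 : F4.Main := main_of _ (PA.f4ok.toOKs) fun Q hQ k hk V _ R i =>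
  PA.jF4fin Q hQ k hk V R i

theorem main_G2 : G2.Main := main_of _ (PA.g2ok.toOKs) fun Q hQ k hk V _ R i =>
  PA.jG2fin Q hQ k hk V R i

end H391.KR.GD
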