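import Mathlib

/-!
# Discrete LS paths over an abstract reflection datum (H391/KR)

Weights are functions `ι → ℤ`.  A reflection datum consists of the positive real coroots `R`
(as functionals `ev`), their roots `rt`, and simple ones `sim j`.
-/

noncomputable section

namespace H391.KR

open Finset

/-- Abstract reflection datum (think: positive real coroots of an affine root system). -/
structure RDat (ι I : Type) where
  /-- positive real coroots -/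
  R : Type
  /-- coroots as functionals -/
  ev : R → (ι → ℤ) →+ ℤ
  /-- the root of a coroot -/
  rt : R → (ι → ℤ)
  /-- simple coroots -/
  sim : I → R
  ev_rt : ∀ b, ev b (rt b) = 2
  inj : ∀ b c, (∀ x, ev b x = ev c x) → b = c
  /-- no two positive coroots are opposite -/
  pos : ∀ b c, ¬ (∀ x, ev b x = - ev c x)
  /-- a simple reflection permutes the other positive coroots -/
  perm : ∀ j b, b ≠ sim j → ∃ c, c ≠ sim j ∧
    (∀ x, ev c x = ev b (x - ev (sim j) x • rt (sim j))) ∧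
    rt c = rt b - ev (sim j) (rt b) • rt (sim j)
  /-- a reflected positive coroot is positive, or minus a positive one, and in the second case
  the pairing is positive -/
  dich : ∀ b c, (∃ d, ∀ x, ev d x = ev c (x - ev b x • rt b)) ∨
    (0 < ev c (rt b) ∧ ∃ d, ∀ x, ev d x = - ev c (x - ev b x • rt b))
  /-- the (dual) Tits cone -/
  T : Set (ι → ℤ)
  T_refl : ∀ x ∈ T, ∀ b, x - ev b x • rt b ∈ T
  fin : ∀ x ∈ T, {b | ev b x < 0}.Finite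

namespace RDat

variable {ι I : Type} (D : RDat ι I)

/-- coordinate `j` of a weight (value of the simple coroot) -/
def co (j : I) (x : ι → ℤ) : ℤ := D.ev (D.sim j) x

/-- simple root -/
def al (j : I) : ι → ℤ := D.rt (D.sim j)

/-- simple reflection -/
def s (j : I) (x : ι → ℤ) : ι → ℤ := x - D.co j x • D.al j

/-- number of positive coroots that are negative at `x` -/
def len (x : ι → ℤ) : ℕ := {b | D.ev b x < 0}.ncard

/-- `y` is a Bruhat cover below `x`, by a reflection whose pairing times `l` is divisible by `M` -/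
def Step (M l : ℕ) (x y : ι → ℤ) : Prop :=
  ∃ b, D.ev b x < 0 ∧ y = x - D.ev b x • D.rt b ∧ D.len y + 1 = D.len x ∧
    (M : ℤ) ∣ (l : ℤ) * D.ev b x

/-- chains of such covers from `x` down to `y` -/
def Rel (M l : ℕ) : (ι → ℤ) → (ι → ℤ) → Prop := Relation.ReflTransGen (D.Step M l)

/-- Bruhat order: `y ≤ x` -/
def Le (y x : ι → ℤ) : Prop := D.Rel 1 0 x y

/-- dominant weights -/
def Dom (x : ι → ℤ) : Prop := ∀ j, 0 ≤ D.co j x

/-- `M` is divisible by all nonzero coordinates of all weights below `x` -/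
def Good (M : ℕ) (x : ι → ℤ) : Prop :=
  0 < M ∧ ∀ y, D.Le y x → ∀ j, D.co j y ≠ 0 → D.co j y ∣ (M : ℤ)

/-- tails of LS paths (grid width `1/M`, steps `a ≤ l < L`) below the direction `k` -/
def Tails (M a L : ℕ) (k : ι → ℤ) : Set (ℕ → ι → ℤ) :=
  {τ | (a < L → D.Rel M a k (τ a)) ∧ (∀ l, a < l → l < L → D.Rel M l (τ (l - 1)) (τ l)) ∧
    ∀ l, (l < a ∨ L ≤ l) → τ l = 0}

/-- LS paths (grid width `1/M`, `L` steps) with all directions below `x` -/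
def Paths (M L : ℕ) (x : ι → ℤ) : Set (ℕ → ι → ℤ) := D.Tails M 0 L x

/-- height function of a path in direction `j`, multiplied by `M` -/
def H (j : I) (τ : ℕ → ι → ℤ) (l : ℕ) : ℤ := ∑ i ∈ range l, D.co j (τ i)

/-- reflect the steps `a ≤ l < b` of a path -/
def rseg (j : I) (a b : ℕ) (τ : ℕ → ι → ℤ) : ℕ → ι → ℤ :=
  fun l => if a ≤ l ∧ l < b then D.s j (τ l) else τ l

/-- hypotheses on (M, a, L, k, j) under which heights are integral at local minima -/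
def Ctx0 (M a L : ℕ) (k : ι → ℤ) (j : I) : Prop :=
  k ∈ D.T ∧ D.Good M k ∧ M ∣ L ∧ a ≤ L ∧ (M : ℤ) ∣ (a : ℤ) * D.co j k

/-- hypotheses on (M, a, L, k, j) under which the root operators act on tails -/
def Ctx (M a L : ℕ) (k : ι → ℤ) (j : I) : Prop := D.Ctx0 M a L k j ∧ D.co j k ≤ 0

end RDat

/-- sum of the directions of a path (`M` times the endpoint) -/
def tot {ι : Type} (L : ℕ) (τ : ℕ → ι → ℤ) : ι → ℤ := fun i => ∑ l ∈ range L, τ l i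

/-- endpoint of a path -/
def wt {ι : Type} (M L : ℕ) (τ : ℕ → ι → ℤ) : ι → ℤ := fun i => (tot L τ i) / (M : ℤ)

/-- the group ring of the weights -/
abbrev GR (ι : Type) := AddMonoidAlgebra ℤ (ι → ℤ)

/-- the exponential `e^x` -/
def ex {ι : Type} (x : ι → ℤ) : GR ι := AddMonoidAlgebra.single x 1

/-- formal character of a set of paths -/
def chS {ι : Type} (M L : ℕ) (S : Set (ℕ → ι → ℤ)) : GR ι := ∑ᶠ τ ∈ S, ex (wt M L τ)

namespace RDat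

variable {ι I : Type} (D : RDat ι I)

/-- Demazure operator on `e^x` -/
def demB (j : I) (x : ι → ℤ) : GR ι :=
  if 0 ≤ D.co j x then ∑ c ∈ range ((D.co j x).toNat + 1), ex (x - (c : ℤ) • D.al j)
  else - ∑ c ∈ range ((- D.co j x).toNat - 1), ex (x + ((c : ℤ) + 1) • D.al j)

/-- Demazure operator -/
def dem (j : I) : GR ι →+ GR ι :=
  (Finsupp.liftAddHom (fun x : ι → ℤ => ((AddMonoidHom.mulRight (D.demB j x)).comp
    (Int.castAddHom (GR ι))))).comp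
      (AddMonoidAlgebra.coeffAddEquiv (R := ℤ) (M := ι → ℤ)).toAddMonoidHom

/-- character of the Demazure set of paths -/
def ch (M L : ℕ) (x : ι → ℤ) : GR ι := chS M L (D.Paths M L x)

/-- String structure for direction `j` on a set `B` of (tails of) paths starting at step `a`. -/
structure Str (M a L : ℕ) (j : I) (B : Set (ℕ → ι → ℤ)) where
  /-- number of times the raising operator can be applied -/
  ep : (ℕ → ι → ℤ) → ℕ
  /-- number of times the lowering operator can be applied -/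
  ph : (ℕ → ι → ℤ) → ℕ
  /-- lowering operator -/
  f : (ℕ → ι → ℤ) → (ℕ → ι → ℤ)
  /-- raising operator -/
  e : (ℕ → ι → ℤ) → (ℕ → ι → ℤ)
  h1 : ∀ τ ∈ B, (M : ℤ) * ph τ - M * ep τ = D.H j τ L
  hf : ∀ τ ∈ B, 0 < ph τ → f τ ∈ B ∧ e (f τ) = τ ∧ ep (f τ) = ep τ + 1 ∧ ph (f τ) + 1 = ph τ ∧
    tot L (f τ) = tot L τ - (M : ℤ) • D.al j ∧ (0 < ep τ → f τ a = τ a)
  he : ∀ τ ∈ B, 0 < ep τ → e τ ∈ B ∧ f (e τ) = τ ∧ ep (e τ) + 1 = ep τ ∧ ph (e τ) = ph τ + 1 ∧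
    tot L (e τ) = tot L τ + (M : ℤ) • D.al j ∧
    (e τ a = τ a ∨ (D.co j (τ a) < 0 ∧ e τ a = D.s j (τ a)))
  h0 : ∀ τ ∈ B, ep τ = 0 → ∀ l, a ≤ l → l ≤ L → 0 ≤ D.H j τ l

/-! ## Statements -/

/-- **S_len.** -/
def S_len : Prop := ∀ (ι I : Type) (D : RDat ι I) (x : ι → ℤ), x ∈ D.T → ∀ j,
  (D.co j x < 0 → D.len (D.s j x) + 1 = D.len x) ∧
  (0 < D.co j x → D.len (D.s j x) = D.len x + 1) ∧ (D.co j x = 0 → D.s j x = x) ∧
  D.s j x ∈ D.T ∧ D.co j (D.s j x) = - D.co j x ∧ D.s j (D.s j x) = x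

/-- **S_refl.** -/
def S_refl : Prop := ∀ (ι I : Type) (D : RDat ι I) (x : ι → ℤ), x ∈ D.T → ∀ b,
  D.ev b x < 0 → D.len (x - D.ev b x • D.rt b) < D.len x

/-- **S_cov.** A step is either the simple reflection `j`, or compatible with it. -/
def S_cov : Prop := ∀ (ι I : Type) (D : RDat ι I) (M l : ℕ) (x y : ι → ℤ), x ∈ D.T →
  D.Step M l x y → ∀ j,
  (y = D.s j x ∧ D.co j x < 0 ∧ (M : ℤ) ∣ (l : ℤ) * D.co j x) ∨
  ((D.co j x < 0 → D.co j y < 0) ∧ (0 < D.co j y → 0 < D.co j x) ∧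
    (D.co j x < 0 → D.Step M l (D.s j x) (D.s j y)) ∧
    (0 < D.co j y → D.Step M l (D.s j x) (D.s j y)))

/-- **S_cong.** -/
def S_cong : Prop := ∀ (ι I : Type) (D : RDat ι I) (M l : ℕ) (x y : ι → ℤ), x ∈ D.T →
  D.Rel M l x y → y ∈ D.T ∧ D.len y ≤ D.len x ∧ (D.len y = D.len x → y = x) ∧
    (∀ i, (M : ℤ) ∣ (l : ℤ) * (x i - y i)) ∧ (∀ b, (M : ℤ) ∣ (l : ℤ) * (D.ev b x - D.ev b y)) ∧
    D.Le y x

/-- **S_chain.** -/
def S_chain : Prop := ∀ (ι I : Type) (D : RDat ι I) (M l : ℕ) (x y : ι → ℤ), x ∈ D.T →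
  D.Rel M l x y → ∀ j,
  (D.co j x < 0 → 0 ≤ D.co j y → D.Rel M l (D.s j x) y ∧ (M : ℤ) ∣ (l : ℤ) * D.co j x) ∧
  (D.co j x ≤ 0 → 0 < D.co j y → D.Rel M l x (D.s j y) ∧ (M : ℤ) ∣ (l : ℤ) * D.co j y) ∧
  (¬ (M : ℤ) ∣ (l : ℤ) * D.co j x → 0 < D.co j x → 0 < D.co j y →
    D.Rel M l (D.s j x) (D.s j y)) ∧
  (¬ (M : ℤ) ∣ (l : ℤ) * D.co j x → D.co j x < 0 →
    D.co j y < 0 ∧ D.Rel M l (D.s j x) (D.s j y)) ∧
  (D.co j x < 0 → (M : ℤ) ∣ (l : ℤ) * D.co j x → D.Step M l x (D.s j x)) ∧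
  (0 < D.co j x → (M : ℤ) ∣ (l : ℤ) * D.co j x → D.Step M l (D.s j x) x)

/-- **S_fin.** -/
def S_fin : Prop := ∀ (ι I : Type) (D : RDat ι I) (x : ι → ℤ), x ∈ D.T →
  {y | D.Le y x}.Finite ∧ ∀ M a L, (D.Tails M a L x).Finite

/-- **S_good.** The datum has finitely many simple roots: a good `M` exists. -/
def S_good : Prop := ∀ (ι I : Type) [Finite I] (D : RDat ι I) (x : ι → ℤ), x ∈ D.T →
  ∃ M, D.Good M x

/-- **S_bru.** Lifting property of the Bruhat order. -/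
def S_bru : Prop := ∀ (ι I : Type) (D : RDat ι I) (x y : ι → ℤ), x ∈ D.T → D.Le y x → ∀ j,
  (D.co j x ≤ 0 → D.Le (D.s j y) x) ∧ (D.co j x < 0 → 0 ≤ D.co j y → D.Le y (D.s j x)) ∧
  (D.co j x < 0 → D.Le (D.s j x) x)

/-- **S_int.** Integrality of heights. -/
def S_int : Prop := ∀ (ι I : Type) (D : RDat ι I) (M a L : ℕ) (k : ι → ℤ) (j : I),
  D.Ctx0 M a L k j → ∀ τ ∈ D.Tails M a L k,
  (∀ l, a ≤ l → l < L → τ l ∈ D.T ∧ D.Le (τ l) k ∧ (D.co j (τ l) ≠ 0 → D.co j (τ l) ∣ (M : ℤ))) ∧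
  (∀ l, a ≤ l → l < L → (M : ℤ) ∣ D.H j τ l - l * D.co j (τ l)) ∧
  (∀ l, a < l → l ≤ L → (M : ℤ) ∣ D.H j τ l - l * D.co j (τ (l - 1))) ∧
  (M : ℤ) ∣ D.H j τ L ∧ D.H j τ a = 0 ∧
  (∀ l, a < l → l < L → D.co j (τ (l - 1)) < 0 → 0 ≤ D.co j (τ l) → (M : ℤ) ∣ D.H j τ l) ∧
  (∀ l, a < l → l < L → D.co j (τ (l - 1)) ≤ 0 → 0 < D.co j (τ l) → (M : ℤ) ∣ D.H j τ l) ∧
  (∀ l, a ≤ l → l < L → ∀ q : ℤ, ¬ (D.H j τ l < q * M ∧ q * M < D.H j τ (l + 1)) ∧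
    ¬ (D.H j τ (l + 1) < q * M ∧ q * M < D.H j τ l)) ∧
  (∀ Q : ℤ, (∀ l, a ≤ l → l ≤ L → Q ≤ D.H j τ l) → (∃ l, a ≤ l ∧ l ≤ L ∧ D.H j τ l = Q) →
    (M : ℤ) ∣ Q)

/-- **S_f.** The lowering operator. -/
def S_f : Prop := ∀ (ι I : Type) (D : RDat ι I) (M a L : ℕ) (k : ι → ℤ) (j : I),
  D.Ctx M a L k j → ∀ τ ∈ D.Tails M a L k, ∀ Q : ℤ,
  (∀ l, a ≤ l → l ≤ L → Q ≤ D.H j τ l) → (∃ l, a ≤ l ∧ l ≤ L ∧ D.H j τ l = Q) →
  Q < D.H j τ L → ∃ l0 l1, a ≤ l0 ∧ l0 < l1 ∧ l1 ≤ L ∧ D.H j τ l0 = Q ∧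
    (∀ l, l0 < l → l ≤ L → Q < D.H j τ l) ∧ D.H j τ l1 = Q + M ∧
    (∀ l, l0 < l → l < l1 → D.H j τ l < Q + M) ∧ (∀ l, l1 ≤ l → l ≤ L → Q + M ≤ D.H j τ l) ∧
    (∀ l, l0 ≤ l → l < l1 → 0 < D.co j (τ l)) ∧ D.rseg j l0 l1 τ ∈ D.Tails M a L k

/-- **S_e.** The raising operator. -/
def S_e : Prop := ∀ (ι I : Type) (D : RDat ι I) (M a L : ℕ) (k : ι → ℤ) (j : I),
  D.Ctx M a L k j → ∀ τ ∈ D.Tails M a L k, ∀ Q : ℤ,
  (∀ l, a ≤ l → l ≤ L → Q ≤ D.H j τ l) → (∃ l, a ≤ l ∧ l ≤ L ∧ D.H j τ l = Q) → Q < 0 →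
  ∃ l0 l1, a ≤ l0 ∧ l0 < l1 ∧ l1 ≤ L ∧ D.H j τ l1 = Q ∧
    (∀ l, a ≤ l → l < l1 → Q < D.H j τ l) ∧ D.H j τ l0 = Q + M ∧
    (∀ l, l0 < l → l < l1 → D.H j τ l < Q + M) ∧ (∀ l, l0 ≤ l → l < l1 → D.co j (τ l) < 0) ∧
    D.rseg j l0 l1 τ ∈ D.Tails M a L k

/-- **S_str.** -/
def S_str : Prop := ∀ (ι I : Type) (D : RDat ι I) (M a L : ℕ) (k : ι → ℤ) (j : I),
  D.Ctx M a L k j → Nonempty (D.Str M a L j (D.Tails M a L k))

/-- **S_inv.** The multiset of total weights of a finite set with string structure is invariant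
under the simple reflection. -/
def S_inv : Prop := ∀ (ι I : Type) (D : RDat ι I) (M a L : ℕ) (j : I) (B : Set (ℕ → ι → ℤ)),
  0 < M → B.Finite → Nonempty (D.Str M a L j B) → ∀ g : (ι → ℤ) → ℤ,
  ∑ᶠ τ ∈ B, g (tot L τ) = ∑ᶠ τ ∈ B, g (D.s j (tot L τ))

/-- **S_wt.** `M` divides the total weight of a full path. -/
def S_wt : Prop := ∀ (ι I : Type) (D : RDat ι I) (M L : ℕ) (x : ι → ℤ), x ∈ D.T → 0 < M →
  M ∣ L → ∀ τ ∈ D.Paths M L x, tot L τ = (M : ℤ) • wt M L τ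

/-- **S_demstr.** Demazure operator on a subset containing all heads. -/
def S_demstr : Prop := ∀ (ι I : Type) (D : RDat ι I) (M L : ℕ) (j : I)
  (B B' : Set (ℕ → ι → ℤ)), 0 < M → B.Finite → B' ⊆ B →
  (∀ τ ∈ B, tot L τ = (M : ℤ) • wt M L τ) → ∀ st : D.Str M 0 L j B,
  (∀ τ ∈ B, st.ep τ = 0 → τ ∈ B') →
  (∀ τ ∈ B', 0 < st.ep τ → st.e τ ∈ B' ∧ (0 < st.ph τ → st.f τ ∈ B')) →
  D.dem j (chS M L B') = chS M L B

/-- **S_main1.** Demazure's recursion. -/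
def S_main1 : Prop := ∀ (ι I : Type) (D : RDat ι I) (M m : ℕ) (x : ι → ℤ) (j : I), x ∈ D.T →
  D.Good M x → (D.co j x < 0 → D.dem j (D.ch M (m * M) (D.s j x)) = D.ch M (m * M) x) ∧
    (D.co j x ≤ 0 → D.dem j (D.ch M (m * M) x) = D.ch M (m * M) x)

/-- **S_main3.** Dominant weights. -/
def S_main3 : Prop := ∀ (ι I : Type) (D : RDat ι I) (M m : ℕ) (x : ι → ℤ), x ∈ D.T → 0 < M →
  D.len x = 0 → D.ch M (m * M) x = ex ((m : ℤ) • x)

/-- **S_main4.** The Pieri type recursion at a weight with one cover. -/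
def S_main4 : Prop := ∀ (ι I : Type) (D : RDat ι I) (M m : ℕ) (x : ι → ℤ) (i : I), x ∈ D.T →
  D.Good M x → D.co i x = -1 → (∀ y, D.Step 1 0 x y → y = D.s i x) →
  D.ch M ((m + 1) * M) x = D.ch M ((m + 1) * M) (D.s i x) + ex x * D.ch M (m * M) x

/-- the path started at `lam` stays dominant -/
def DomFrom (M L : ℕ) (lam : ι → ℤ) (τ : ℕ → ι → ℤ) : Prop :=
  ∀ l, l ≤ L → ∀ j, 0 ≤ (M : ℤ) * D.co j lam + D.H j τ l

/-- **S_main5.** Littelmann's restriction rule for antisymmetric functionals. -/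
def S_main5 : Prop := ∀ (ι I : Type) (D : RDat ι I) (M m : ℕ) (x lam : ι → ℤ), x ∈ D.T →
  D.Good M x → D.Dom lam → ∀ p : (ι → ℤ) → ℤ,
  (∀ y j, p (y - (D.co j y + 1) • D.al j) = - p y) →
  ∑ᶠ τ ∈ D.Paths M (m * M) x, p (lam + wt M (m * M) τ) =
    ∑ᶠ τ ∈ {τ | τ ∈ D.Paths M (m * M) x ∧ D.DomFrom M (m * M) lam τ},
      p (lam + wt M (m * M) τ)

/-- **S_main6.** The directions of a path are below `x`, and a straight path exists. -/
def S_main6 : Prop := ∀ (ι I : Type) (D : RDat ι I) (M L : ℕ) (x : ι → ℤ), x ∈ D.T →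
  (∀ τ ∈ D.Paths M L x, ∀ l, l < L → D.Le (τ l) x) ∧
  (∀ y, D.Le y x → (fun l => if l < L then y else 0) ∈ D.Paths M L x)

end RDat

end H391.KR
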