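import Pool.Agent.H391.KR.P.len
import Pool.Agent.H391.KR.P.cov
import Pool.Agent.H391.KR.P.cong
import Pool.Agent.H391.KR.P.chain
import Pool.Agent.H391.KR.P.fin
import Pool.Agent.H391.KR.P.int
import Pool.Agent.H391.KR.P.f
import Pool.Agent.H391.KR.P.e
import Pool.Agent.H391.KR.P.str
import Pool.Agent.H391.KR.P.inv
import Pool.Agent.H391.KR.P.wt
import Pool.Agent.H391.KR.P.demstr
import Pool.Agent.H391.KR.P.main1
import Pool.Agent.H391.KR.P.main3
import Pool.Agent.H391.KR.P.main4
import Pool.Agent.H391.KR.P.main5

namespace H391.KR.PA

theorem len : RDat.S_len := P_len.main.1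
theorem refl : RDat.S_refl := P_len.main.2
theorem cov : RDat.S_cov := P_cov.main len refl
theorem cong : RDat.S_cong := P_cong.main
theorem chain : RDat.S_chain := P_chain.main len cov cong
theorem fin : RDat.S_fin := (P_fin.main cong len chain).1
theorem good : RDat.S_good := (P_fin.main cong len chain).2.1
theorem bru : RDat.S_bru := (P_fin.main cong len chain).2.2
theorem int : RDat.S_int := P_int.main cong chain
theorem f : RDat.S_f := P_f.main cong len chain int
theorem e : RDat.S_e := P_e.main cong len chain int
theorem str : RDat.S_str := P_str.main len cong int f e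
theorem inv : RDat.S_inv := P_inv.main
theorem wt : RDat.S_wt := (P_wt.main cong).1
theorem main6 : RDat.S_main6 := (P_wt.main cong).2
theorem demstr : RDat.S_demstr := P_demstr.main
theorem main1 : RDat.S_main1 := P_main1.main len cong chain fin str wt demstr
theorem main3 : RDat.S_main3 := P_main3.main cong
theorem main4 : RDat.S_main4 := P_main4.main len cov cong fin wt
theorem main5 : RDat.S_main5 := P_main5.main len cong chain fin int str inv wt

end H391.KR.PA
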