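import Pool.Agent.H391.KR.PA
import Pool.Agent.H391.KR.P.ndem
import Pool.Agent.H391.KR.P.ndel
import Pool.Agent.H391.KR.P.nlink
import Pool.Agent.H391.KR.P.nred
import Pool.Agent.H391.KR.P.ndesc
import Pool.Agent.H391.KR.P.nop
import Pool.Agent.H391.KR.P.nadj
import Pool.Agent.H391.KR.P.ntw
import Pool.Agent.H391.KR.P.cfacts
import Pool.Agent.H391.KR.P.cdat
import Pool.Agent.H391.KR.P.chd
import Pool.Agent.H391.KR.P.csig
import Pool.Agent.H391.KR.P.ccov
import Pool.Agent.H391.KR.P.cstar
import Pool.Agent.H391.KR.P.csd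
import Pool.Agent.H391.KR.P.cX
import Pool.Agent.H391.KR.P.cadj
import Pool.Agent.H391.KR.P.cF
import Pool.Agent.H391.KR.P.cK
import Pool.Agent.H391.KR.P.cinj
import Pool.Agent.H391.KR.P.cQ

namespace H391.KR.PA

theorem ndem : RDat.N_dem := P_ndem.main len cong fin good bru wt main1 main3 main4 main5 main6
theorem ndel : RDat.N_del := P_ndel.main len
theorem nlink : RDat.N_link := P_nlink.main ndel
theorem nred : RDat.N_red := P_nred.main len
theorem ndesc : RDat.N_desc := P_ndesc.main.1
theorem ndemw : RDat.N_demw := P_ndesc.main.2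
theorem nop : RDat.N_op := P_nop.main
theorem nadj : RDat.N_adj := P_nadj.main nop
theorem ntw : RDat.N_tw := P_ntw.main len nop
theorem cfacts : SLC.C_facts := P_cfacts.main
theorem cdat : SLC.C_dat := P_cdat.main cfacts
theorem chd : SLC.C_hd := (P_chd.main cfacts).1
theorem cinv0 : SLC.C_inv0 := (P_chd.main cfacts).2
theorem csig : SLC.C_sig := P_csig.main nred ndesc cfacts chd
theorem ccov : SLC.C_cov := P_ccov.main cov cfacts
theorem cstar : SLC.C_star := P_cstar.main len nred ndesc ndel cfacts chd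
theorem csd : SLC.C_sd := P_csd.main ndesc ndemw nop nadj cfacts chd ccov cstar
theorem cX : SLC.C_X := P_cX.main ndesc ndemw nop nadj ntw cfacts chd
theorem cadj : SLC.C_adj := P_cadj.main ndesc ndemw ntw cfacts chd
theorem cF : SLC.C_F := P_cF.main bru nop nred nlink cfacts chd cinv0 ccov csig cX
theorem cK : SLC.C_K := P_cK.main cX cF
theorem cinj : SLC.C_inj := P_cinj.main nred nlink cfacts chd
theorem cQ : SLC.C_Q := P_cQ.main nop nadj ntw cX cadj csd cF cK cinj cinv0 chd

end H391.KR.PA
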