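import Pool.Agent.H391.KR.PN

/-!
# Simply laced affine root data (H391/KR, part C)
-/

noncomputable section

namespace H391.KR

open Finset

/-- Connected simply laced Cartan matrix of finite type, with its highest root `th`
(coefficients in the simple roots). -/
structure SLC (n : ℕ) where
  C : Fin n → Fin n → ℤ
  th : Fin n → ℤ
  symm : ∀ i j, C i j = C j i
  diag : ∀ i, C i i = 2
  off : ∀ i j, i ≠ j → C i j = 0 ∨ C i j = -1
  pd : ∀ a : Fin n → ℤ, a ≠ 0 → 0 < ∑ i, ∑ j, a i * C i j * a j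
  conn : ∀ A : Set (Fin n), A.Nonempty → (∀ i ∈ A, ∀ j, C i j ≠ 0 → j ∈ A) → ∀ j, j ∈ A
  th_root : ∑ i, ∑ j, th i * C i j * th j = 2
  th_dom : ∀ i, 0 ≤ ∑ j, C i j * th j

/-- dot product -/
def dot {n : ℕ} (a mu : Fin n → ℤ) : ℤ := ∑ i, a i * mu i

/-- affine weight (modulo the imaginary root) of level `l` and finite part `mu` -/
def aw {n : ℕ} (l : ℤ) (mu : Fin n → ℤ) : Option (Fin n) → ℤ := fun o => o.elim l mu

/-- finite part -/
def fp {n : ℕ} (x : Option (Fin n) → ℤ) : Fin n → ℤ := fun i => x (some i)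

/-- fundamental weight -/
def om {n : ℕ} (i : Fin n) : Fin n → ℤ := fun j => if j = i then 1 else 0

/-- translation by the negative of the `i`-th fundamental weight -/
def tr {n : ℕ} (i : Fin n) (x : Option (Fin n) → ℤ) : Option (Fin n) → ℤ :=
  aw (x none) (fp x - x none • om i)

/-- the weight of level one with finite part minus the `i`-th fundamental weight -/
def xi {n : ℕ} (i : Fin n) : Option (Fin n) → ℤ := aw 1 (-om i)

namespace SLC

variable {n : ℕ} (S : SLC n)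

/-- weight coordinates of a root lattice vector -/
def cv (a : Fin n → ℤ) : Fin n → ℤ := fun i => ∑ j, S.C i j * a j

/-- the bilinear form -/
def bf (a b : Fin n → ℤ) : ℤ := dot a (S.cv b)

/-- `a` is a root (coordinates in the simple roots) -/
def IsRoot (a : Fin n → ℤ) : Prop := S.bf a a = 2

/-- the affine Weyl vector -/
def rho : Option (Fin n) → ℤ := aw (1 + ∑ i, S.th i) fun _ => 1

/-- `(a, m)` is a positive real coroot -/
def Pos (a : Fin n → ℤ) (m : ℤ) : Prop := S.IsRoot a ∧ (1 ≤ m ∨ (m = 0 ∧ ∀ i, 0 ≤ a i))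

/-- `D` is the reflection datum of the untwisted affine root system -/
structure AffDat (D : RDat (Option (Fin n)) (Option (Fin n))) : Prop where
  ev : ∀ b : D.R, ∃ a m, S.Pos a m ∧ (∀ x, D.ev b x = dot a (fp x) + m * x none) ∧
    D.rt b = aw 0 (S.cv a)
  exi : ∀ a m, S.Pos a m → ∃ b : D.R, (∀ x, D.ev b x = dot a (fp x) + m * x none) ∧
    D.rt b = aw 0 (S.cv a)
  cof : ∀ j x, D.co (some j) x = x (some j)
  co0 : ∀ x, D.co none x = x none - dot S.th (fp x)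
  alf : ∀ j, D.al (some j) = aw 0 fun i => S.C i j
  al0 : D.al none = aw 0 fun i => - S.cv S.th i
  T : D.T = {x | 1 ≤ x none}

/-- the data defining the operator `X_i` -/
structure XDat (D : RDat (Option (Fin n)) (Option (Fin n))) (i : Fin n) where
  /-- word -/
  w : List (Option (Fin n))
  /-- diagram automorphism (weights) -/
  sg : (Option (Fin n) → ℤ) ≃+ (Option (Fin n) → ℤ)
  /-- diagram automorphism (nodes) -/
  ta : Option (Fin n) ≃ Option (Fin n)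
  tw : D.Tw sg ta
  desc : D.Desc (some i :: w) (xi i)
  eq : ∀ x, sg x = D.sR (some i :: w) (tr i x)

/-- the operator `X_i` -/
def XDat.X {D : RDat (Option (Fin n)) (Option (Fin n))} {i : Fin n}
    (X : XDat D i) : GR (Option (Fin n)) →+ GR (Option (Fin n)) :=
  (D.demL (some i :: X.w)).comp
    (push (X.sg : (Option (Fin n) → ℤ) →+ (Option (Fin n) → ℤ))).toAddMonoidHom

/-- element supported in level zero and invariant under all simple reflections -/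
def Inv0 (D : RDat (Option (Fin n)) (Option (Fin n))) (f : GR (Option (Fin n))) : Prop :=
  (∀ j, D.IsInv j f) ∧ ∀ x, f.coeff x ≠ 0 → x none = 0

/-- `F_m` for the node `i`, as an element of level zero -/
def F (_S : SLC n) (D : RDat (Option (Fin n)) (Option (Fin n))) (i : Fin n) (m : ℕ) :
    GR (Option (Fin n)) := ex (aw (-(m : ℤ)) 0) * D.Dem (xi i) m

/-! ## Statements -/

/-- **C_facts.** Elementary facts on simply laced root systems. -/
def C_facts : Prop := ∀ (n : ℕ) (S : SLC n),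
  (∀ a b, S.bf a b = S.bf b a) ∧ (∀ a, a ≠ 0 → 2 ≤ S.bf a a) ∧
  (∀ a, S.IsRoot a → (∀ i, 0 ≤ a i) ∨ ∀ i, a i ≤ 0) ∧
  (∀ a b, S.IsRoot a → S.IsRoot b → -2 ≤ S.bf a b ∧ S.bf a b ≤ 2 ∧ (S.bf a b = 2 → a = b) ∧
    (S.bf a b = -2 → a = -b)) ∧
  {a | S.IsRoot a}.Finite ∧ (∀ a, S.IsRoot a → ∀ i, a i ≤ S.th i) ∧ (∀ i, 1 ≤ S.th i) ∧
  (∀ a b, S.cv a = S.cv b → a = b) ∧
  (∀ a b, S.IsRoot a → S.IsRoot b → S.IsRoot (b - S.bf a b • a)) ∧ (∀ i, S.IsRoot (om i))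

/-- **C_dat.** -/
def C_dat : Prop := ∀ (n : ℕ) (S : SLC n), ∃ D, S.AffDat D

/-- **C_hd.** -/
def C_hd : Prop := ∀ (n : ℕ) (S : SLC n) D, S.AffDat D → D.HD S.rho

/-- **C_sig.** -/
def C_sig : Prop := ∀ (n : ℕ) (S : SLC n) D, S.AffDat D → ∀ i, Nonempty (XDat D i)

/-- **C_cov.** The only cover of `xi i`, and of its analogue at large level. -/
def C_cov : Prop := ∀ (n : ℕ) (S : SLC n) D, S.AffDat D → ∀ i,
  (∀ y, D.Step 1 0 (xi i) y → y = D.s (some i) (xi i)) ∧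
  ∀ N : ℤ, 1 ≤ N → S.th i < N → ∀ y, D.Step 1 0 (aw N (-om i)) y →
    y = D.s (some i) (aw N (-om i))

/-- **C_star.** The longest element, with reduced words starting with any given letter. -/
def C_star : Prop := ∀ (n : ℕ) (S : SLC n) D, S.AffDat D → ∃ st : Fin n ≃ Fin n,
  (∀ i j, S.C (st i) (st j) = S.C i j) ∧ ∀ i', ∃ c : List (Option (Fin n)),
    (∀ j ∈ c, ∃ k, j = some k) ∧ (∀ N, D.Desc (some i' :: c) (aw N fun _ => -1)) ∧
    ∀ x, (D.sR (some i' :: c) x) none = x none ∧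
      ∀ j, (D.sR (some i' :: c) x) (some (st j)) = - x (some j)

/-- **C_sd.** Demazure characters and the longest element. -/
def C_sd : Prop := ∀ (n : ℕ) (S : SLC n) D, S.AffDat D → D.DemOK → ∀ i, ∃ i' c,
  (∀ j ∈ c, ∃ k : Fin n, j = some k) ∧
  (∀ m, D.Dem (xi i') m = D.demL (some i' :: c) (D.Dem (aw 1 (om i)) m)) ∧
  (∀ m, D.Dem (D.s (some i') (xi i')) m = D.demL c (D.Dem (aw 1 (om i)) m)) ∧
  ∀ l : ℤ, ex (aw l (-om i)) = D.demL (some i' :: c).reverse (ex (aw l (om i'))) -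
    D.demL c.reverse (ex (aw l (om i')))

/-- **C_inv0.** -/
def C_inv0 : Prop := ∀ (n : ℕ) (S : SLC n) D, S.AffDat D → ∀ f : GR (Option (Fin n)),
  (∀ j : Fin n, D.IsInv (some j) f) → (∀ x, f.coeff x ≠ 0 → x none = 0) → Inv0 D f

/-- **C_X.** Properties of the operators `X_i`. -/
def C_X : Prop := ∀ (n : ℕ) (S : SLC n) D, S.AffDat D → D.DemOK → ∀ i (X : XDat D i),
  (∀ phi f, Inv0 D phi → X.X (phi * f) = phi * X.X f) ∧
  (∀ y ∈ D.T, (∀ b, D.ev b (xi i) < 0 → D.ev b (tr i y) ≤ 0) →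
    ∀ m, X.X (D.Dem y m) = D.Dem (tr i y) m) ∧
  (∀ m : ℕ, X.X (ex (aw m 0)) = D.Dem (xi i) m) ∧
  (∀ la : Fin n → ℤ, (∀ j, 0 ≤ la j) → ∀ m,
    X.X (D.Dem (aw 1 (-la)) m) = D.Dem (aw 1 (-la - om i)) m) ∧
  (∀ m, X.X (D.Dem (D.s (some i) (xi i)) m) =
    D.Dem (aw 1 (fun j => -(2 * om i j - S.C j i))) m)

/-- **C_adj.** -/
def C_adj : Prop := ∀ (n : ℕ) (S : SLC n) D, S.AffDat D → D.DemOK → ∀ i (X : XDat D i),
  ∀ m : ℕ, D.demL (some i :: X.w).reverse (ex (aw m 0)) =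
    push (X.sg : (Option (Fin n) → ℤ) →+ (Option (Fin n) → ℤ)) (D.Dem (aw 1 (om i)) m)

/-- **C_F.** The elements `F_m` and the product formula. -/
def C_F : Prop := ∀ (n : ℕ) (S : SLC n) D, S.AffDat D → D.DemOK →
  (∀ i m, Inv0 D (S.F D i m)) ∧ (∀ i (m : ℕ), ex (aw (m : ℤ) 0) * S.F D i m = D.Dem (xi i) m) ∧
  (∀ (la : Fin n → ℕ) (m : ℕ), D.Dem (aw 1 (fun j => -(la j : ℤ))) m =
    ex (aw m 0) * ∏ j, S.F D j m ^ la j) ∧
  (∀ i (m : ℕ), D.Dem (aw 1 (fun j => -(2 * om i j - S.C j i))) m =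
    ex (aw m 0) * ∏ j, if S.C i j = -1 then S.F D j m else 1) ∧
  (∀ i m, D.Dem (xi i) (m + 1) = D.Dem (D.s (some i) (xi i)) (m + 1) +
    ex (xi i) * D.Dem (xi i) m) ∧
  (∀ i m, S.F D i m ≠ 0) ∧ ∀ i, S.F D i 0 = 1

/-- **C_K.** -/
def C_K : Prop := ∀ (n : ℕ) (S : SLC n) D, S.AffDat D → D.DemOK → ∀ i (X : XDat D i) (m : ℕ),
  S.F D i (m + 1) ^ 2 = (∏ j, if S.C i j = -1 then S.F D j (m + 1) else 1) +
    S.F D i m * (ex (aw (-((m : ℤ) + 1)) 0) * X.X (ex (aw ((m : ℤ) + 1) (-om i))))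

/-- **C_inj.** Invariant elements are determined by the antisymmetric functionals of
large level. -/
def C_inj : Prop := ∀ (n : ℕ) (S : SLC n) D, S.AffDat D → ∀ f, Inv0 D f → ∀ k0 : ℤ,
  (∀ k : ℤ, k0 ≤ k → ∀ p, D.Anti p → pair p (ex (aw k 0) * f) = 0) → f = 0

/-- **C_Q.** The Q-system. -/
def C_Q : Prop := ∀ (n : ℕ) (S : SLC n) D, S.AffDat D → D.DemOK → ∀ i (X : XDat D i) (m : ℕ),
  ex (aw (-((m : ℤ) + 1)) 0) * X.X (ex (aw ((m : ℤ) + 1) (-om i))) = S.F D i (m + 2) ∧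
  S.F D i (m + 1) ^ 2 = (∏ j, if S.C i j = -1 then S.F D j (m + 1) else 1) +
    S.F D i m * S.F D i (m + 2)

end SLC

end H391.KR
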