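import Pool.Agent.H391.KR.PZ

/-!
# Final definitions for the results on Kirillov-Reshetikhin modules (H391/KR)
-/

noncomputable section

namespace H391.KR

open Finset

namespace SLC

variable {n : ℕ} (S : SLC n)

/-- the representation ring: Weyl group invariants in the group ring of the weight lattice -/
def RepR : Type := S.Rep

instance repRing : CommRing S.RepR := Subring.toCommRing S.Rep

variable {S} in
/-- the character of a class -/
def chr (f : S.RepR) : GR (Fin n) := Subtype.val (p := fun x => x ∈ S.Rep) f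

/-- coefficient of `e^mu` -/
def coef (f : GR (Fin n)) (mu : Fin n → ℤ) : ℤ := f.coeff mu

/-- the weight `m om_i - ∑ g_j alpha_j` -/
def hwt (i : Fin n) (m : ℕ) (g : Fin n → ℕ) : Fin n → ℤ :=
  (m : ℤ) • om i - S.cv fun j => (g j : ℤ)

/-- product over the neighbours of `i` in the Dynkin diagram -/
def prodNb (Q : Fin n → S.RepR) (i : Fin n) : S.RepR := ∏ j, if S.C i j = -1 then Q j else 1

/-- one relation of the Q-system -/
def QRel (Q : Fin n → ℕ → S.RepR) (i : Fin n) (m : ℕ) : Prop :=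
  Q i (m + 1) * Q i (m + 1) = Q i (m + 2) * Q i m + S.prodNb (fun j => Q j (m + 1)) i

/-- the family of characters of Kirillov-Reshetikhin modules -/
structure KRFam (Q : Fin n → ℕ → S.RepR) : Prop where
  zero : ∀ i, Q i 0 = 1
  qsys : ∀ i m, S.QRel Q i m
  top : ∀ i m, coef (chr (Q i m)) (S.hwt i m 0) = 1
  low : ∀ i m mu, coef (chr (Q i m)) mu ≠ 0 → ∃ g, mu = S.hwt i m g
  lim : ∀ i g, ∃ (c : ℤ) (N : ℕ), ∀ m, N ≤ m → coef (chr (Q i m)) (S.hwt i m g) = c

/-- the Verlinde ring of level `k`: a ring `V` with an additive isomorphism `co` to the free abelian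
group on the finite set `alc k`, and a homomorphism `pi` from the representation ring which is
given by `piK` in these coordinates -/
structure VRing (k : ℕ) (V : Type) [CommRing V] where
  co : V ≃+ (S.alc k → ℤ)
  pi : S.RepR →+* V
  pi_eq : ∀ f la, co (pi f) la = S.piK k (chr f) la

variable {S} in
/-- positive: a nonzero nonnegative integer combination of basis elements -/
def VRing.Pos {k : ℕ} {V : Type} [CommRing V] (R : S.VRing k V) (f : S.RepR) : Prop :=
  (∀ la, 0 ≤ R.co (R.pi f) la) ∧ R.pi f ≠ 0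

/-- the statements (a), (b), (c) for the node `i` -/
def Q1 {k : ℕ} {V : Type} [CommRing V] (R : S.VRing k V) (Q : Fin n → ℕ → S.RepR)
    (i : Fin n) : Prop :=
  (∀ m ≤ k, R.Pos (Q i m)) ∧ IsUnit (R.pi (Q i 0)) ∧ IsUnit (R.pi (Q i k)) ∧
    R.pi (Q i (k + 1)) = 0

theorem krfam_iff (Q : Fin n → ℕ → S.RepR) : S.KRFam Q ↔ S.KRFamily (Q : Fin n → ℕ → S.Rep) := by
  constructor
  · intro h
    refine ⟨h.zero, fun i m => ?_, fun i m => ?_, h.low, h.lim⟩
    · exact (pow_two (M := S.RepR) _).trans (h.qsys i m)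
    · have := h.top i m
      have e : S.hwt i m 0 = (m : ℤ) • om i := by
        have : S.cv (fun j => (((0 : Fin n → ℕ) j : ℕ) : ℤ)) = 0 := by
          funext j; simp [cv]
        rw [hwt, this, sub_zero]
      rw [e] at this
      exact this
  · intro h
    refine ⟨h.zero, fun i m => ?_, fun i m => ?_, h.low, h.lim⟩
    · exact (pow_two (M := S.RepR) _).symm.trans (h.qsys i m)
    · have := h.top i m
      have e : S.hwt i m 0 = (m : ℤ) • om i := by
        have : S.cv (fun j => (((0 : Fin n → ℕ) j : ℕ) : ℤ)) = 0 := by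
          funext j; simp [cv]
        rw [hwt, this, sub_zero]
      rw [e]
      exact this

theorem main_uniq : ∃! Q : Fin n → ℕ → S.RepR, S.KRFam Q := by
  obtain ⟨Q, hQ, hu⟩ := (PA.vmain1 n S).1
  exact ⟨Q, (S.krfam_iff Q).2 hQ, fun Q' h' => hu Q' ((S.krfam_iff Q').1 h')⟩

/-- old structure from the new one -/
def VRing.toV {k : ℕ} {V : Type} [CommRing V] (R : S.VRing k V) : S.Verlinde k V :=
  haveI : Fintype (S.alc k) := ((PA.vexp n S _ (PA.cdat n S).choose_spec k).1).fintype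
  { b := Module.Basis.ofEquivFun (R.co.toIntLinearEquiv)
    pi := R.pi
    pi_eq := by
      intro f la
      have h : (Module.Basis.ofEquivFun (R.co.toIntLinearEquiv)).repr (R.pi f) la =
        R.co (R.pi f) la := rfl
      exact h.trans (R.pi_eq f la) }

/-- new structure from the old one -/
def toVRing {k : ℕ} {V : Type} [CommRing V] (R : S.Verlinde k V) : S.VRing k V :=
  haveI : Finite (S.alc k) := ((PA.vexp n S _ (PA.cdat n S).choose_spec k).1).to_subtype
  { co := R.b.equivFun.toAddEquiv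
    pi := R.pi
    pi_eq := by
      intro f la
      exact R.pi_eq f la }

theorem main_ver (k : ℕ) (hk : 1 ≤ k) :
    (∃ (V : Type) (_ : CommRing V), Nonempty (S.VRing k V)) ∧
    ∀ Q : Fin n → ℕ → S.RepR, S.KRFam Q → ∀ (V : Type) [CommRing V] (R : S.VRing k V) i,
      S.Q1 R Q i := by
  obtain ⟨h1, h2⟩ := (PA.vmain1 n S).2 k hk
  obtain ⟨V, iV, ⟨R⟩⟩ := h1
  refine ⟨⟨V, iV, ⟨S.toVRing R⟩⟩, ?_⟩
  intro Q hQ V _ R i
  obtain ⟨a, b, c, d⟩ := h2 Q ((S.krfam_iff Q).1 hQ) V (R.toV) i
  refine ⟨fun m hm => ⟨fun la => ?_, (a m hm).2⟩, b, c, d⟩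
  have h3 := (a m hm).1 la
  have h4 := (R.toV).pi_eq (Q i m) la
  have h5 := R.pi_eq (Q i m) la
  rw [h5]
  rw [h4] at h3
  exact h3

theorem main_qd (Q : Fin n → ℕ → S.RepR) (hQ : S.KRFam Q) (k : ℕ) (hk : 1 ≤ k) (i : Fin n) :
    (∀ m ≤ k, 0 < S.qdim k (chr (Q i m))) ∧ S.qdim k (chr (Q i 0)) = 1 ∧
      S.qdim k (chr (Q i k)) = 1 ∧ S.qdim k (chr (Q i (k + 1))) = 0 :=
  PA.vmain2 n S Q ((S.krfam_iff Q).1 hQ) k hk i

end SLC

end H391.KR
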