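import Pool.Agent.H391.KR.PM

/-!
# Words, Demazure characters, antisymmetric functionals (H391/KR, part N)
-/

noncomputable section

namespace H391.KR

open Finset

/-- pairing of a function on weights with an element of the group ring -/
def pair {ι : Type} (p : (ι → ℤ) → ℤ) : GR ι →+ ℤ :=
  (Finsupp.liftAddHom (fun x : ι → ℤ => AddMonoidHom.mulRight (p x))).comp
    (AddMonoidAlgebra.coeffAddEquiv (R := ℤ) (M := ι → ℤ)).toAddMonoidHom

/-- ring homomorphism of group rings induced by a homomorphism of weight groups -/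
def push {ι κ : Type} (g : (ι → ℤ) →+ (κ → ℤ)) : GR ι →+* GR κ :=
  AddMonoidAlgebra.mapDomainRingHom ℤ g

namespace RDat

variable {ι I : Type} (D : RDat ι I)

/-- positive coroots are nonnegative on dominant weights, and `rho` is a Weyl vector -/
structure HD (rho : ι → ℤ) : Prop where
  dom : ∀ x, D.Dom x → ∀ b, 0 ≤ D.ev b x
  one : ∀ j, D.co j rho = 1
  pos : ∀ b, 1 ≤ D.ev b rho
  T : rho ∈ D.T

/-- action of a word on weights, the first letter acts first -/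
def sR : List I → (ι → ℤ) → (ι → ℤ)
  | [], x => x
  | j :: w, x => sR w (D.s j x)

/-- every letter of the word acts at a negative coordinate -/
def Desc : List I → (ι → ℤ) → Prop
  | [], _ => True
  | j :: w, x => D.co j x < 0 ∧ Desc w (D.s j x)

/-- every letter of the word acts at a nonpositive coordinate -/
def Desc0 : List I → (ι → ℤ) → Prop
  | [], _ => True
  | j :: w, x => D.co j x ≤ 0 ∧ Desc0 w (D.s j x)

/-- composite of Demazure operators, the last letter acts first -/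
def demL : List I → GR ι →+ GR ι
  | [] => AddMonoidHom.id _
  | j :: w => (D.dem j).comp (demL w)

/-- antisymmetric functions (dot action) -/
def Anti (p : (ι → ℤ) → ℤ) : Prop := ∀ y j, p (y - (D.co j y + 1) • D.al j) = - p y

/-- invariance of a group ring element under a simple reflection -/
def IsInv (j : I) (f : GR ι) : Prop := ∀ x, f.coeff (D.s j x) = f.coeff x

/-- a diagram automorphism -/
structure Tw (σ : (ι → ℤ) ≃+ (ι → ℤ)) (τ : I ≃ I) : Prop where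
  co : ∀ j x, D.co (τ j) (σ x) = D.co j x
  al : ∀ j, σ (D.al j) = D.al (τ j)
  T : ∀ x, x ∈ D.T ↔ σ x ∈ D.T

open Classical in
/-- Demazure character of shape `x` (paths of length `m`) -/
def Dem (x : ι → ℤ) (m : ℕ) : GR ι :=
  if h : ∃ M, D.Good M x then D.ch h.choose (m * h.choose) x else 0

/-- signed linkage for the dot action: `mu` is obtained from `nu` by reflections, with sign -/
inductive Link : ℤ → (ι → ℤ) → (ι → ℤ) → Prop
  | refl (nu : ι → ℤ) : Link 1 nu nu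
  | step (e : ℤ) (mu nu : ι → ℤ) (j : I) : Link e mu nu →
      Link (-e) (mu - (D.co j mu + 1) • D.al j) nu

open Classical in
/-- antisymmetric function attached to a dominant weight -/
def pf (lam mu : ι → ℤ) : ℤ := if D.Link 1 mu lam then 1 else if D.Link (-1) mu lam then -1 else 0

/-- Properties of Demazure characters. -/
structure DemOK : Prop where
  d1 : ∀ x ∈ D.T, ∀ m j, D.co j x < 0 → D.dem j (D.Dem (D.s j x) m) = D.Dem x m
  d2 : ∀ x ∈ D.T, ∀ m j, D.co j x ≤ 0 → D.dem j (D.Dem x m) = D.Dem x m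
  d3 : ∀ x ∈ D.T, ∀ m, D.Dom x → D.Dem x m = ex ((m : ℤ) • x)
  d4 : ∀ x ∈ D.T, ∀ m i, D.co i x = -1 → (∀ y, D.Step 1 0 x y → y = D.s i x) →
    D.Dem x (m + 1) = D.Dem (D.s i x) (m + 1) + ex x * D.Dem x m
  d5 : ∀ x ∈ D.T, D.Dem x 0 = 1
  d6 : ∀ x ∈ D.T, ∀ m mu, (D.Dem x m).coeff mu ≠ 0 → ∃ (M : ℕ) (y : ℕ → ι → ℤ), 0 < M ∧
    (∀ l, l < m * M → D.Le (y l) x) ∧ (M : ℤ) • mu = ∑ l ∈ range (m * M), y l
  d7 : ∀ x ∈ D.T, ∀ m lam, D.Dom lam → ∃ c : (ι → ℤ) →₀ ℕ, (∀ nu, c nu ≠ 0 → D.Dom nu) ∧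
    (∀ p, D.Anti p → pair p (ex lam * D.Dem x m) = c.sum fun nu a => (a : ℤ) * p nu) ∧
    ∀ y, D.Le y x → D.Dom (lam + (m : ℤ) • y) → c (lam + (m : ℤ) • y) ≠ 0
  d8 : ∀ x ∈ D.T, ∀ m mu, (D.Dem x m).coeff mu ≠ 0 →
    mu - (m : ℤ) • x ∈ AddSubgroup.closure (Set.range D.al)

/-! ## Statements -/

/-- **N_dem.** -/
def N_dem : Prop := ∀ (ι I : Type) [Finite I] (D : RDat ι I) (rho : ι → ℤ), D.HD rho → D.DemOK

/-- **N_del.** Deletion and its consequences. -/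
def N_del : Prop := ∀ (ι I : Type) (D : RDat ι I) (rho : ι → ℤ), D.HD rho →
  (∀ w : List I, ∃ w' : List I, (∀ j ∈ w', j ∈ w) ∧ w'.length % 2 = w.length % 2 ∧
    (∀ x, D.sR w' x = D.sR w x) ∧ D.len (D.sR w rho) = w'.length) ∧
  (∀ (w : List I) y, D.Dom y → D.Dom (D.sR w y) → D.sR w y = y) ∧
  (∀ (w : List I) y, (∀ j, 0 < D.co j y) → D.Dom (D.sR w y) →
    (∀ x, D.sR w x = x) ∧ w.length % 2 = 0)

/-- **N_link.** -/
def N_link : Prop := ∀ (ι I : Type) (D : RDat ι I) (rho : ι → ℤ), D.HD rho →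
  (∀ lam, D.Dom lam → D.Anti (D.pf lam) ∧ D.pf lam lam = 1 ∧
    ∀ mu, D.Dom mu → mu ≠ lam → D.pf lam mu = 0) ∧
  (∀ e mu nu, D.Link e mu nu → (e = 1 ∨ e = -1) ∧ ∀ p, D.Anti p → p mu = e * p nu) ∧
  (∀ e e' mu lam lam', D.Link e mu lam → D.Link e' mu lam' → D.Dom lam → D.Dom lam' →
    lam = lam' ∧ e = e') ∧
  (∀ e mu nu, D.Link e mu nu → ∃ w : List I, D.sR w (nu + rho) = mu + rho)

/-- **N_red.** Reduction to weights that are dominant for the letters in `J`. -/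
def N_red : Prop := ∀ (ι I : Type) (D : RDat ι I) (J : Set I) (x : ι → ℤ), x ∈ D.T →
  (∃ w : List I, (∀ j ∈ w, j ∈ J) ∧ D.Desc w x ∧ ∀ j ∈ J, 0 ≤ D.co j (D.sR w x)) ∧
  ∀ i ∈ J, D.co i x < 0 → ∃ w : List I, (∀ j ∈ w, j ∈ J) ∧ D.Desc (i :: w) x ∧
    ∀ j ∈ J, 0 ≤ D.co j (D.sR (i :: w) x)

/-- **N_desc.** -/
def N_desc : Prop := ∀ (ι I : Type) (D : RDat ι I),
  (∀ w x y, D.Desc w x → (∀ b, D.ev b x < 0 → D.ev b y ≤ 0) → D.Desc0 w y) ∧
  (∀ w x y, D.Desc w x → (∀ b, D.ev b x < 0 → D.ev b y < 0) → D.Desc w y) ∧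
  (∀ w x y, D.Desc w x → (∀ b, D.ev b x < 0 → D.ev b y ≤ 0) →
    (∀ b, D.ev b y < 0 → D.ev b x < 0) → (∀ b, 0 ≤ D.ev b (D.sR w x)) →
    ∀ b, 0 ≤ D.ev b (D.sR w y)) ∧
  (∀ w y, D.Desc w (-y) → D.Desc w.reverse (D.sR w y)) ∧
  (∀ w x, D.sR w.reverse (D.sR w x) = x ∧ D.sR w (D.sR w.reverse x) = x) ∧
  (∀ w x y, D.sR w (x + y) = D.sR w x + D.sR w y) ∧
  (∀ w (c : ℤ) x, D.sR w (c • x) = c • D.sR w x) ∧ (∀ w x, D.sR w (-x) = - D.sR w x) ∧
  (∀ w w' x, D.sR (w ++ w') x = D.sR w' (D.sR w x)) ∧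
  (∀ w w' f, D.demL (w ++ w') f = D.demL w (D.demL w' f)) ∧
  (∀ w x, x ∈ D.T → D.sR w x ∈ D.T)

/-- **N_demw.** Demazure's formula along a word. -/
def N_demw : Prop := ∀ (ι I : Type) (D : RDat ι I), D.DemOK → ∀ (w : List I) y m, y ∈ D.T →
  D.Desc0 w y → D.Dem y m = D.demL w (D.Dem (D.sR w y) m)

/-- **N_op.** Algebra of Demazure operators. -/
def N_op : Prop := ∀ (ι I : Type) (D : RDat ι I) (j : I),
  (∀ f g, D.IsInv j f → D.dem j (f * g) = f * D.dem j g) ∧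
  (∀ f, D.IsInv j (D.dem j f)) ∧ (∀ f, D.IsInv j f → D.dem j f = f) ∧
  (∀ p, D.Anti p → ∀ f, pair p (D.dem j f) = pair p f) ∧
  (∀ p, D.Anti p → ∀ f g, pair p (D.dem j f * g) = pair p (f * D.dem j g)) ∧
  (∀ p, D.Anti p → ∀ f x, D.IsInv j f → D.co j x = -1 → pair p (ex x * f) = 0) ∧
  (∀ x, D.dem j (ex x) = D.demB j x) ∧
  (∀ f g, D.IsInv j f → D.IsInv j g → D.IsInv j (f + g) ∧ D.IsInv j (f - g) ∧
    D.IsInv j (f * g)) ∧ (∀ x, D.co j x = 0 → D.IsInv j (ex x)) ∧ D.IsInv j 1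

/-- **N_adj.** Adjunction along words. -/
def N_adj : Prop := ∀ (ι I : Type) (D : RDat ι I) (p : (ι → ℤ) → ℤ), D.Anti p →
  (∀ (w : List I) f, pair p (D.demL w f) = pair p f) ∧
  (∀ (w : List I) f g, pair p (D.demL w f * g) = pair p (f * D.demL w.reverse g)) ∧
  (∀ (w : List I) f g, (∀ j ∈ w, D.IsInv j f) → D.demL w (f * g) = f * D.demL w g) ∧
  (∀ (w : List I) f, (∀ j ∈ w, D.IsInv j f) → D.demL w f = f)

/-- **N_tw.** Diagram automorphisms. -/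
def N_tw : Prop := ∀ (ι I : Type) (D : RDat ι I) (rho : ι → ℤ), D.HD rho → D.DemOK →
  ∀ (σ : (ι → ℤ) ≃+ (ι → ℤ)) (τ : I ≃ I), D.Tw σ τ →
  (∀ x, D.Dom x ↔ D.Dom (σ x)) ∧ (∀ j x, σ (D.s j x) = D.s (τ j) (σ x)) ∧
  (∀ j f, push (σ : (ι → ℤ) →+ (ι → ℤ)) (D.dem j f) =
    D.dem (τ j) (push (σ : (ι → ℤ) →+ (ι → ℤ)) f)) ∧
  (∀ x ∈ D.T, ∀ m, D.Dem (σ x) m = push (σ : (ι → ℤ) →+ (ι → ℤ)) (D.Dem x m)) ∧
  (∀ p, D.Anti p → D.Anti (fun x => p (σ x))) ∧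
  (∀ (p : (ι → ℤ) → ℤ) f,
    pair p (push (σ : (ι → ℤ) →+ (ι → ℤ)) f) = pair (fun x => p (σ x)) f) ∧ D.Tw σ.symm τ.symm

end RDat

end H391.KR
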