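import Pool.Agent.H391.KR.PB
import Pool.Agent.H391.KR.P.vfin
import Pool.Agent.H391.KR.P.vab
import Pool.Agent.H391.KR.P.vpik
import Pool.Agent.H391.KR.P.vmem
import Pool.Agent.H391.KR.P.vexp
import Pool.Agent.H391.KR.P.vker
import Pool.Agent.H391.KR.P.vsurj
import Pool.Agent.H391.KR.P.vring
import Pool.Agent.H391.KR.P.vver
import Pool.Agent.H391.KR.P.vlow
import Pool.Agent.H391.KR.P.vfam
import Pool.Agent.H391.KR.P.vuniq
import Pool.Agent.H391.KR.P.vsin
import Pool.Agent.H391.KR.P.vqsg
import Pool.Agent.H391.KR.P.vqexp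
import Pool.Agent.H391.KR.P.vmain1
import Pool.Agent.H391.KR.P.vmain2

namespace H391.KR.PA

theorem vfin : SLC.V_fin := P_vfin.main cfacts
theorem vab : SLC.V_AB := P_vab.main len nred ndesc ndel cfacts vfin
theorem vpik : SLC.V_pik := P_vpik.main nlink cfacts chd vab
theorem vmem : SLC.V_mem := P_vmem.main cinv0
theorem vexp : SLC.V_exp := P_vexp.main nred nlink cfacts chd
theorem vker : SLC.V_ker := P_vker.main nlink vexp
theorem vsurj : SLC.V_surj := P_vsurj.main nop nadj nred ndesc ndemw cfacts cinv0 cstar chd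
theorem vring : SLC.V_ring := P_vring.main cdat chd ndem nlink vpik vmem vexp vker vsurj
theorem vver : SLC.V_ver := P_vver.main bru nop nadj ntw nred nlink chd csig cX cF cQ
theorem vlow : SLC.V_low := P_vlow.main len refl cong bru cfacts cF
theorem vfam : SLC.V_fam := P_vfam.main cstar cfacts cF csig cQ vmem vlow
theorem vuniq : SLC.V_uniq := P_vuniq.main
theorem vsin : SLC.V_sin := P_vsin.main cfacts
theorem vqsg : SLC.V_qsg := P_vqsg.main cfacts chd vpik vsin
theorem vqexp : SLC.V_qexp := P_vqexp.main nred cdat chd nlink vpik vsin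
theorem vmain1 : SLC.V_main1 := P_vmain1.main cdat chd ndem nlink vpik vring vver vfam vuniq
theorem vmain2 : SLC.V_main2 := P_vmain2.main cdat chd csig ndem nlink ntw vpik vmem vexp vver vfam
  vuniq vsin vqsg vqexp

end H391.KR.PA
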